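import Mathlib

/-!
Subtask KP-E (owner helper222): measurability of the segment maximal function of a polynomial, and
Young's inequality with an integrable majorant.
-/

open MeasureTheory Set Metric
open scoped ENNReal NNReal Topology

namespace Pool.Agent.H222.KP

/-- the integrals over segments depend continuously on the direction -/
theorem smax_cont (n : ℕ) (P : MvPolynomial (Fin n) ℝ) (a : EuclideanSpace ℝ (Fin n)) :
    Continuous (fun e : EuclideanSpace ℝ (Fin n) =>
      ∫⁻ s in Icc (-(1 / 2) : ℝ) (1 / 2), ‖MvPolynomial.eval (fun i => (a + s • e) i) P‖ₑ) := by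
  have hc : Continuous (Function.uncurry fun (e : EuclideanSpace ℝ (Fin n)) (s : ℝ) =>
      MvPolynomial.eval (fun i => (a + s • e) i) P) := by
    refine (MvPolynomial.continuous_eval P).comp ?_
    refine continuous_pi fun i => ?_
    have h1 : Continuous fun q : EuclideanSpace ℝ (Fin n) × ℝ => a + q.2 • q.1 := by fun_prop
    exact (EuclideanSpace.proj i : EuclideanSpace ℝ (Fin n) →L[ℝ] ℝ).continuous.comp h1
  have h2 : ∀ e : EuclideanSpace ℝ (Fin n),
      ∫⁻ s in Icc (-(1 / 2) : ℝ) (1 / 2), ‖MvPolynomial.eval (fun i => (a + s • e) i) P‖ₑ =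
      ENNReal.ofReal (∫ s in Icc (-(1 / 2) : ℝ) (1 / 2),
        ‖MvPolynomial.eval (fun i => (a + s • e) i) P‖) := by
    intro e
    have h3 : Continuous fun s : ℝ => MvPolynomial.eval (fun i => (a + s • e) i) P := by
      refine (MvPolynomial.continuous_eval P).comp ?_
      refine continuous_pi fun i => ?_
      have h1 : Continuous fun s : ℝ => a + s • e := by fun_prop
      exact (EuclideanSpace.proj i : EuclideanSpace ℝ (Fin n) →L[ℝ] ℝ).continuous.comp h1
    have h4 : Integrable (fun s : ℝ => MvPolynomial.eval (fun i => (a + s • e) i) P)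
        (volume.restrict (Icc (-(1 / 2) : ℝ) (1 / 2))) := h3.integrableOn_Icc
    exact (ofReal_integral_norm_eq_lintegral_enorm h4).symm
  have h5 : Continuous fun e : EuclideanSpace ℝ (Fin n) =>
      ∫ s in Icc (-(1 / 2) : ℝ) (1 / 2), ‖MvPolynomial.eval (fun i => (a + s • e) i) P‖ :=
    continuous_parametric_integral_of_continuous (f := fun (e : EuclideanSpace ℝ (Fin n))
      (s : ℝ) => ‖MvPolynomial.eval (fun i => (a + s • e) i) P‖) hc.norm isCompact_Icc
  have h6 := ENNReal.continuous_ofReal.comp h5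
  have h7 : (fun e : EuclideanSpace ℝ (Fin n) =>
      ∫⁻ s in Icc (-(1 / 2) : ℝ) (1 / 2), ‖MvPolynomial.eval (fun i => (a + s • e) i) P‖ₑ) =
      ENNReal.ofReal ∘ fun e : EuclideanSpace ℝ (Fin n) =>
      ∫ s in Icc (-(1 / 2) : ℝ) (1 / 2), ‖MvPolynomial.eval (fun i => (a + s • e) i) P‖ :=
    funext h2
  rw [h7]
  exact h6

/-- For fixed `a` the integral is a continuous function of `e`; so the supremum is lower
semicontinuous, hence measurable. -/
theorem smax_meas (n : ℕ) (P : MvPolynomial (Fin n) ℝ) :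
    Measurable (fun e : EuclideanSpace ℝ (Fin n) =>
      ⨆ a ∈ {a : EuclideanSpace ℝ (Fin n) | ∀ i, |a i| ≤ 1 / 2},
        ∫⁻ s in Icc (-(1 / 2) : ℝ) (1 / 2), ‖MvPolynomial.eval (fun i => (a + s • e) i) P‖ₑ) := by
  refine LowerSemicontinuous.measurable ?_
  exact lowerSemicontinuous_iSup fun a => lowerSemicontinuous_iSup fun _ =>
    (smax_cont n P a).lowerSemicontinuous

/-- Young's inequality `‖f * G‖_p ≤ ‖G‖_1 ‖f‖_p`: by Hoelder (Jensen) with the measure
`G (x - y) dy`, `(∫ f y G (x - y) dy)^p ≤ A^(p-1) ∫ (f y)^p G (x - y) dy`, then Tonelli. -/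
theorem young (n : ℕ) {p : ℝ} (hp : 1 ≤ p) {G : EuclideanSpace ℝ (Fin n) → ℝ≥0∞}
    (hG : Measurable G) {A : ℝ≥0∞} (hGA : ∫⁻ v, G v ≤ A)
    {f : EuclideanSpace ℝ (Fin n) → ℝ≥0∞} (hf : Measurable f) :
    ∫⁻ x, (∫⁻ y, f y * G (x - y)) ^ p ≤ A ^ p * ∫⁻ y, f y ^ p := by
  have hp0 : 0 < p := lt_of_lt_of_le one_pos hp
  -- the pointwise estimate
  have key : ∀ x, (∫⁻ y, f y * G (x - y)) ^ p ≤ A ^ (p - 1) * ∫⁻ y, f y ^ p * G (x - y) := by
    intro x
    have hGx : Measurable fun y => G (x - y) := hG.comp (measurable_const.sub measurable_id)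
    have hI : ∫⁻ y, G (x - y) ≤ A := by
      rw [lintegral_sub_left_eq_self (fun v => G v) x]
      exact hGA
    rcases hp.eq_or_lt with rfl | hp1
    · simp
    · have hpq : p.HolderConjugate (Real.conjExponent p) := Real.HolderConjugate.conjExponent hp1
      set q := Real.conjExponent p with hq
      have hq0 : 0 < q := hpq.symm.pos
      have h1 := ENNReal.lintegral_mul_le_Lp_mul_Lq (volume : Measure (EuclideanSpace ℝ (Fin n)))
        hpq (f := fun y => f y * G (x - y) ^ (1 / p)) (g := fun y => G (x - y) ^ (1 / q))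
        (hf.mul (hGx.pow_const _)).aemeasurable (hGx.pow_const _).aemeasurable
      have e1 : ∀ y, ((fun y => f y * G (x - y) ^ (1 / p)) * fun y => G (x - y) ^ (1 / q)) y =
          f y * G (x - y) := by
        intro y
        rw [Pi.mul_apply, mul_assoc, ← ENNReal.rpow_add_of_nonneg _ _ (by positivity)
          (by positivity)]
        have h2 : 1 / p + 1 / q = 1 := by
          have := hpq.inv_add_inv_eq_one
          rw [one_div, one_div]
          exact this
        rw [h2, ENNReal.rpow_one]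
      have e2 : ∀ y, (f y * G (x - y) ^ (1 / p)) ^ p = f y ^ p * G (x - y) := by
        intro y
        rw [ENNReal.mul_rpow_of_nonneg _ _ hp0.le, ← ENNReal.rpow_mul,
          one_div_mul_cancel hp0.ne', ENNReal.rpow_one]
      have e3 : ∀ y, (G (x - y) ^ (1 / q)) ^ q = G (x - y) := by
        intro y
        rw [← ENNReal.rpow_mul, one_div_mul_cancel hq0.ne', ENNReal.rpow_one]
      simp only [e1, e2, e3] at h1
      have e4 : 1 / q * p = p - 1 := by
        have h3 := hpq.sub_one_mul_conj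
        have h4 : (p - 1) * q = p := h3
        field_simp
        linarith
      calc (∫⁻ y, f y * G (x - y)) ^ p
          ≤ ((∫⁻ y, f y ^ p * G (x - y)) ^ (1 / p) * (∫⁻ y, G (x - y)) ^ (1 / q)) ^ p :=
            ENNReal.rpow_le_rpow h1 hp0.le
        _ = (∫⁻ y, f y ^ p * G (x - y)) * (∫⁻ y, G (x - y)) ^ (p - 1) := by
            rw [ENNReal.mul_rpow_of_nonneg _ _ hp0.le, ← ENNReal.rpow_mul, ← ENNReal.rpow_mul,
              one_div_mul_cancel hp0.ne', ENNReal.rpow_one, e4]
        _ ≤ (∫⁻ y, f y ^ p * G (x - y)) * A ^ (p - 1) :=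
            mul_le_mul_right (ENNReal.rpow_le_rpow hI (by linarith)) _
        _ = A ^ (p - 1) * ∫⁻ y, f y ^ p * G (x - y) := mul_comm _ _
  have hm : Measurable (Function.uncurry fun (x y : EuclideanSpace ℝ (Fin n)) =>
      f y ^ p * G (x - y)) :=
    ((hf.pow_const p).comp measurable_snd).mul (hG.comp (measurable_fst.sub measurable_snd))
  calc ∫⁻ x, (∫⁻ y, f y * G (x - y)) ^ p
      ≤ ∫⁻ x, A ^ (p - 1) * ∫⁻ y, f y ^ p * G (x - y) := lintegral_mono key
    _ = A ^ (p - 1) * ∫⁻ x, ∫⁻ y, f y ^ p * G (x - y) :=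
        lintegral_const_mul _ hm.lintegral_prod_right
    _ = A ^ (p - 1) * ∫⁻ y, ∫⁻ x, f y ^ p * G (x - y) := by
        rw [lintegral_lintegral_swap hm.aemeasurable]
    _ = A ^ (p - 1) * ∫⁻ y, f y ^ p * ∫⁻ v, G v := by
        congr 1
        refine lintegral_congr fun y => ?_
        have hm2 : Measurable fun x => G (x - y) := hG.comp (measurable_id.sub_const y)
        rw [lintegral_const_mul _ hm2, lintegral_sub_right_eq_self (fun v => G v) y]
    _ ≤ A ^ (p - 1) * ∫⁻ y, f y ^ p * A :=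
        mul_le_mul_right (lintegral_mono fun y => mul_le_mul_right hGA _) _
    _ = A ^ (p - 1) * ((∫⁻ y, f y ^ p) * A) := by
        rw [lintegral_mul_const _ (hf.pow_const p)]
    _ = A ^ p * ∫⁻ y, f y ^ p := by
        have h5 : A ^ p = A ^ (p - 1) * A := by
          have h6 : A ^ (p - 1 + 1) = A ^ (p - 1) * A ^ (1 : ℝ) :=
            ENNReal.rpow_add_of_nonneg _ _ (by linarith) zero_le_one
          rw [ENNReal.rpow_one, sub_add_cancel] at h6
          exact h6
        rw [h5, mul_comm (∫⁻ y, f y ^ p) A, mul_assoc]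

end Pool.Agent.H222.KP
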