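import Pool.Agent.H222.KP.Fwd
import Pool.Agent.H222.KP.MeasE

/-!
From functions to polynomials.
-/

open MeasureTheory Set Filter Topology ENNReal NNReal Metric

namespace Pool.Agent.H222.KP

open Pool.Agent.W767.Kc Pool.Agent.H742R2.Kk

variable {n : ℕ}

theorem ker_cont (N k : ℕ) (c : ℝ) : Continuous (ker N k c : E n → ℝ) := by
  unfold ker
  have h1 : Continuous fun v : E n =>
      (Polynomial.Chebyshev.U ℝ (N : ℤ)).eval (1 - c * ‖v‖ ^ 2) :=
    (Polynomial.continuous _).comp (by fun_prop)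
  fun_prop

theorem ker_nonneg (N k : ℕ) (c : ℝ) (v : E n) : 0 ≤ ker N k c v := by
  unfold ker
  rw [pow_mul]
  positivity

/-- the convolution with the kernel is a polynomial -/
theorem conv_fun (hn : 1 ≤ n) (N k : ℕ) {g : E n → ℝ≥0∞} (hg : Measurable g)
    (hg2 : ∀ y ∉ cube n 2, g y = 0) (hfin : ∫⁻ y, g y ≠ ∞) :
    ∃ P : MvPolynomial (Fin n) ℝ, P.totalDegree ≤ 4 * k * N ∧ (∀ x, 0 ≤ ev P x) ∧ ∀ x ∈ cube n 2,
      ‖ev P x‖ₑ = ∫⁻ y, g y * ENNReal.ofReal (ker N k (1 / (16 * n)) (x - y)) := by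
  set ν : Measure (E n) := volume.withDensity g with hν
  have hfinν : IsFiniteMeasure ν := isFiniteMeasure_withDensity hfin
  have hsupp : ∀ᵐ y ∂ν, y ∈ cube n 2 := by
    rw [hν, ae_withDensity_iff hg]
    exact Eventually.of_forall fun y hy => by_contra fun h => hy (hg2 y h)
  obtain ⟨P, hP, hPe⟩ := conv_poly n N k (1 / (16 * n)) ν hsupp
  have hPe' : ∀ x, ev P x = ∫ y, ker N k (1 / (16 * n)) (x - y) ∂ν := hPe
  refine ⟨P, hP, fun x => ?_, fun x hx => ?_⟩
  · rw [hPe' x]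
    exact integral_nonneg fun y => ker_nonneg _ _ _ _
  have h1 : ev P x = ∫ y, ker N k (1 / (16 * n)) (x - y) ∂ν := hPe' x
  have hn' : (1 : ℝ) ≤ n := by exact_mod_cast hn
  have hcont : Continuous fun y : E n => ker N k (1 / (16 * n)) (x - y) :=
    (ker_cont N k _).comp (by fun_prop)
  have hint : Integrable (fun y => ker N k (1 / (16 * n)) (x - y)) ν := by
    refine Integrable.of_bound hcont.measurable.aestronglyMeasurable 1 ?_
    filter_upwards [hsupp] with y hy
    rw [Real.norm_of_nonneg (ker_nonneg _ _ _ _)]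
    refine (ker_le_one N k (by positivity) _ ?_).2
    have := cube_sub hx hy
    rw [one_div, inv_mul_le_iff₀ (by positivity)]
    linarith
  rw [h1, ← ofReal_norm, Real.norm_of_nonneg (integral_nonneg fun y => ker_nonneg _ _ _ _),
    ofReal_integral_eq_lintegral_ofReal hint (Eventually.of_forall fun y => ker_nonneg _ _ _ _), hν,
    lintegral_withDensity_eq_lintegral_mul _ hg hcont.measurable.ennreal_ofReal]
  rfl

theorem tube_cube {δ : ℝ} (hδ1 : δ ≤ 1) {a e : E n} (ha : a ∈ cube n (1 / 2)) (he : ‖e‖ = 1) :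
    tube δ e a ⊆ cube n 2 := by
  intro y hy i
  have h1 : ‖y - a‖ ≤ 1 / 2 + δ := by
    have e1 : y - a = (inner ℝ (y - a) e : ℝ) • e + ((y - a) - (inner ℝ (y - a) e : ℝ) • e) := by
      abel
    rw [e1]
    refine (norm_add_le _ _).trans ?_
    rw [norm_smul, he, mul_one, Real.norm_eq_abs]
    exact add_le_add hy.1 hy.2
  have h2 := coord_le (y - a) i
  have h3 := ha i
  have h4 : y i = (y - a) i + a i := by simp
  rw [h4]
  calc |(y - a) i + a i| ≤ |(y - a) i| + |a i| := abs_add_le _ _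
    _ ≤ 2 := by linarith

/-- **From functions to polynomials.** -/
theorem poly_of_fun (hn : 1 ≤ n) : ∃ C₁ C₂ : ℝ≥0, ∀ δ : ℝ, 0 < δ → δ ≤ 1 →
    ∀ f : E n → ℝ≥0∞, Measurable f → ∫⁻ y in cube n 2, f y ≠ ∞ →
    ∃ P : MvPolynomial (Fin n) ℝ, (P.totalDegree : ℝ) ≤ 4 * n / δ ∧ (∀ x, 0 ≤ ev P x) ∧
      (∀ e : E n, ‖e‖ = 1 → ∀ a ∈ cube n (1 / 2), (volume (tube δ e a))⁻¹ * ∫⁻ y in tube δ e a, f y ≤
        C₁ * ENNReal.ofReal ((1 / δ) ^ n) * smax P e) ∧
      (∀ p : ℝ, 1 ≤ p → ∫⁻ y in cube n 2, ‖ev P y‖ₑ ^ p ≤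
        (C₂ * ENNReal.ofReal (δ ^ n)) ^ p * ∫⁻ y in cube n 2, f y ^ p) := by
  obtain ⟨C, hC, hCt⟩ := tube_le_seg hn
  set I : ℝ≥0∞ := ∫⁻ v, maj n 1 n v with hI
  have hIt : I < ∞ := maj_fin (by omega)
  set K : ℝ≥0∞ := ENNReal.ofReal ((64 * n) ^ n) * (2 ^ n * I) with hK
  have hKt : K ≠ ∞ := by
    rw [hK]
    have := hIt.ne
    finiteness
  refine ⟨(C * 2 ^ (2 * n)).toNNReal, K.toNNReal, fun δ hδ hδ1 f hf hfin => ?_⟩
  have hn' : (1 : ℝ) ≤ n := by exact_mod_cast hn
  have hδi : 1 ≤ 1 / δ := by rw [le_div_iff₀ hδ]; linarith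
  obtain ⟨N, hN⟩ : ∃ N : ℕ, ⌊1 / δ⌋₊ = N + 1 := by
    have : 0 < ⌊1 / δ⌋₊ := Nat.floor_pos.2 hδi
    exact ⟨⌊1 / δ⌋₊ - 1, by omega⟩
  have hN1 : ((N : ℝ) + 1) ≤ 1 / δ := by
    have := Nat.floor_le (by positivity : 0 ≤ 1 / δ)
    rw [hN] at this
    exact_mod_cast this
  have hN2 : 1 / (2 * δ) ≤ (N : ℝ) + 1 := by
    have h1 := Nat.lt_floor_add_one (1 / δ)
    rw [hN] at h1
    push_cast at h1
    have h2 : (0 : ℝ) ≤ N := Nat.cast_nonneg N
    have h3 : 1 / (2 * δ) = (1 / δ) / 2 := by field_simp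
    rw [h3]
    linarith
  set g : E n → ℝ≥0∞ := (cube n 2).indicator f with hg
  have hgm : Measurable g := hf.indicator (cube_meas n 2)
  have hgi : ∫⁻ y, g y = ∫⁻ y in cube n 2, f y := lintegral_indicator (cube_meas n 2) _
  obtain ⟨P, hP, hP0, hPe⟩ := conv_fun hn N n hgm (fun y hy => indicator_of_notMem hy _)
    (by rw [hgi]; exact hfin)
  refine ⟨P, ?_, hP0, fun e he a ha => ?_, fun p hp => ?_⟩
  · have h1 : (P.totalDegree : ℝ) ≤ ((4 * n * N : ℕ) : ℝ) := by exact_mod_cast hP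
    refine h1.trans ?_
    push_cast
    rw [mul_div_assoc]
    have h2 : (N : ℝ) ≤ 1 / δ := by linarith
    calc 4 * (n : ℝ) * N ≤ 4 * n * (1 / δ) := by gcongr
      _ = 4 * (n / δ) := by ring
  · -- the lower bound
    have h1 : ∫⁻ y in tube δ e a, f y = ∫⁻ y in tube δ e a, g y := by
      refine setLIntegral_congr_fun (isClosed_tube δ e a).measurableSet fun y hy => ?_
      exact (indicator_of_mem (tube_cube hδ1 ha he hy) f).symm
    rw [h1]
    refine (hCt δ hδ hδ1 g hgm e a he).trans ?_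
    have h2 : ∀ s ∈ Icc (-(1 / 2) : ℝ) (1 / 2),
        Av (2 * δ) g (a + s • e) ≤ 2 ^ (2 * n) * ‖ev P (a + s • e)‖ₑ := by
      intro s hs
      have hx : a + s • e ∈ cube n 2 := cube_mono (by norm_num) (seg_cube ha he hs)
      rw [hPe _ hx, ← lintegral_const_mul' _ _ (by finiteness)]
      unfold Av
      rw [← lintegral_indicator isClosed_closedBall.measurableSet]
      refine lintegral_mono fun y => ?_
      by_cases hy : y ∈ closedBall (a + s • e) (2 * δ)
      · rw [indicator_of_mem hy]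
        have h3 : ‖a + s • e - y‖ ≤ 2 * δ := by
          rw [← dist_eq_norm, dist_comm]
          exact mem_closedBall.1 hy
        have h4 : (1 / 2 : ℝ) ^ (2 * n) ≤ ker N n (1 / (16 * n)) (a + s • e - y) := by
          refine ker_big N n (by positivity) _ ?_
          have h5 : ((N : ℝ) + 1) * ‖a + s • e - y‖ ≤ 2 := by
            calc ((N : ℝ) + 1) * ‖a + s • e - y‖ ≤ 1 / δ * (2 * δ) := by gcongr
              _ = 2 := by field_simp
          have h6 : 1 / (16 * (n : ℝ)) * ((N : ℝ) + 1) ^ 2 * ‖a + s • e - y‖ ^ 2 =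
              (((N : ℝ) + 1) * ‖a + s • e - y‖) ^ 2 / (16 * n) := by
            field_simp
          rw [h6, div_le_iff₀ (by positivity)]
          have h7 : (((N : ℝ) + 1) * ‖a + s • e - y‖) ^ 2 ≤ 2 ^ 2 := by gcongr
          linarith
        have h8 : (1 : ℝ≥0∞) ≤ 2 ^ (2 * n) *
            ENNReal.ofReal (ker N n (1 / (16 * n)) (a + s • e - y)) := by
          have e2 : (2 : ℝ≥0∞) ^ (2 * n) = ENNReal.ofReal (2 ^ (2 * n)) := by
            rw [ENNReal.ofReal_pow (by norm_num), ENNReal.ofReal_ofNat]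
          rw [e2, ← ENNReal.ofReal_mul (by positivity), ← ENNReal.ofReal_one]
          refine ENNReal.ofReal_le_ofReal ?_
          calc (1 : ℝ) = 2 ^ (2 * n) * (1 / 2) ^ (2 * n) := by rw [← mul_pow]; norm_num
            _ ≤ _ := by gcongr
        calc g y = g y * 1 := (mul_one _).symm
          _ ≤ g y * (2 ^ (2 * n) * ENNReal.ofReal (ker N n (1 / (16 * n)) (a + s • e - y))) := by
            gcongr
          _ = _ := by ring
      · rw [indicator_of_notMem hy]
        exact zero_le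
    calc ENNReal.ofReal (C * (1 / δ) ^ n) *
          ∫⁻ s in Icc (-(1 / 2) : ℝ) (1 / 2), Av (2 * δ) g (a + s • e)
        ≤ ENNReal.ofReal (C * (1 / δ) ^ n) *
          ∫⁻ s in Icc (-(1 / 2) : ℝ) (1 / 2), 2 ^ (2 * n) * ‖ev P (a + s • e)‖ₑ := by
          exact mul_le_mul' le_rfl (setLIntegral_mono' measurableSet_Icc h2)
      _ = ENNReal.ofReal (C * (1 / δ) ^ n) * 2 ^ (2 * n) *
          ∫⁻ s in Icc (-(1 / 2) : ℝ) (1 / 2), ‖ev P (a + s • e)‖ₑ := by
          rw [lintegral_const_mul' _ _ (by finiteness), mul_assoc]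
      _ ≤ ENNReal.ofReal (C * (1 / δ) ^ n) * 2 ^ (2 * n) * smax P e := by
          gcongr
          exact le_iSup₂ (f := fun (a : E n) (_ : a ∈ cube n (1 / 2)) =>
            ∫⁻ s in Icc (-(1 / 2) : ℝ) (1 / 2), ‖ev P (a + s • e)‖ₑ) a ha
      _ = _ := by
          have e3 : (((C * 2 ^ (2 * n)).toNNReal : ℝ≥0) : ℝ≥0∞) = ENNReal.ofReal C * 2 ^ (2 * n) := by
            have e2 : (2 : ℝ≥0∞) ^ (2 * n) = ENNReal.ofReal (2 ^ (2 * n)) := by
              rw [ENNReal.ofReal_pow (by norm_num), ENNReal.ofReal_ofNat]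
            rw [e2, ← ENNReal.ofReal_mul hC.le]
            rfl
          rw [e3, ENNReal.ofReal_mul hC.le]
          ring
  · -- the norm of the polynomial
    set G : E n → ℝ≥0∞ := fun v => ENNReal.ofReal ((64 * n) ^ n) * maj n (1 / (2 * δ)) n v with hG
    have hmj := maj_meas (n := n) (1 / (2 * δ)) n
    have hGm : Measurable G := by fun_prop
    have hGi : ∫⁻ v, G v ≤ K * ENNReal.ofReal (δ ^ n) := by
      rw [hG, lintegral_const_mul' _ _ ENNReal.ofReal_ne_top, maj_int (by positivity)]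
      have e1 : ENNReal.ofReal ((1 / (1 / (2 * δ))) ^ n) = 2 ^ n * ENNReal.ofReal (δ ^ n) := by
        rw [one_div_one_div, mul_pow, ENNReal.ofReal_mul (by positivity),
          ENNReal.ofReal_pow (by norm_num), ENNReal.ofReal_ofNat]
      rw [e1, hK]
      refine le_of_eq ?_
      ring
    have hy := young n hp hGm hGi hgm
    have e4 : ((K.toNNReal : ℝ≥0) : ℝ≥0∞) = K := ENNReal.coe_toNNReal hKt
    rw [e4]
    have hp0 : 0 < p := by linarith
    have e5 : ∫⁻ y in cube n 2, f y ^ p = ∫⁻ y, g y ^ p := by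
      rw [← lintegral_indicator (cube_meas n 2)]
      refine lintegral_congr fun y => ?_
      by_cases h : y ∈ cube n 2
      · rw [indicator_of_mem h, hg, indicator_of_mem h]
      · rw [indicator_of_notMem h, hg, indicator_of_notMem h, ENNReal.zero_rpow_of_pos hp0]
    rw [e5]
    refine le_trans ?_ hy
    rw [← lintegral_indicator (cube_meas n 2)]
    refine lintegral_mono fun x => ?_
    by_cases hx : x ∈ cube n 2
    · rw [indicator_of_mem hx]
      refine ENNReal.rpow_le_rpow ?_ hp0.le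
      rw [hPe x hx]
      refine lintegral_mono fun y => ?_
      by_cases h : y ∈ cube n 2
      · show g y * _ ≤ g y * G (x - y)
        gcongr
        exact ker_maj hn N n (by positivity) hN2 _ (cube_sub hx h)
      · have : g y = 0 := by rw [hg, indicator_of_notMem h]
        simp [this]
    · rw [indicator_of_notMem hx]
      exact zero_le

end Pool.Agent.H222.KP
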