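import Mathlib

/-!
Subtask KP-C (owner helper222): integrals of the radial polynomial kernel are polynomials.
(by helper261, adapted from `Pool/Agent/H222/SP/Poly.lean`)
-/

open MeasureTheory Set Metric
open scoped ENNReal NNReal Topology

namespace Pool.Agent.H222.KP

namespace CP

variable {n : ℕ}

/-- Euclidean space -/
abbrev E (n : ℕ) : Type := EuclideanSpace ℝ (Fin n)

/-- evaluation of the coefficients -/
noncomputable def evh (η : E n) : C(E n, ℝ) →+* ℝ := (ContinuousMap.evalAlgHom ℝ ℝ η).toRingHom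

theorem evh_apply (η : E n) (f : C(E n, ℝ)) : evh η f = f η := rfl

theorem norm_le_of (y : E n) (h : ∀ i, |y i| ≤ 2) : y ∈ closedBall (0 : E n) (2 * n) := by
  rw [mem_closedBall_zero_iff]
  have h1 : ‖y‖ ^ 2 ≤ (2 * n) ^ 2 := by
    rw [EuclideanSpace.norm_sq_eq]
    calc ∑ i, ‖y i‖ ^ 2 ≤ ∑ _i : Fin n, (4 : ℝ) := by
          refine Finset.sum_le_sum fun i _ => ?_
          rw [Real.norm_eq_abs]
          have := h i
          have h0 := abs_nonneg (y i)
          nlinarith
      _ = 4 * n := by simp; ring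
      _ ≤ (2 * n) ^ 2 := by
          have : (n : ℝ) ≤ (n : ℝ) ^ 2 := by exact_mod_cast Nat.le_self_pow two_ne_zero n
          nlinarith
  exact (pow_le_pow_iff_left₀ (norm_nonneg _) (by positivity) two_ne_zero).1 h1

/-- averages of polynomials with variable coefficients -/
theorem poly_int {ν : Measure (E n)} [IsFiniteMeasure ν] (hν : ∀ᵐ y ∂ν, ∀ i, |y i| ≤ 2)
    (Q : MvPolynomial (Fin n) C(E n, ℝ)) :
    ∃ P : MvPolynomial (Fin n) ℝ, P.totalDegree ≤ Q.totalDegree ∧
      ∀ ξ : E n, MvPolynomial.eval (fun i => ξ i) P =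
        ∫ η, MvPolynomial.eval₂ (evh η) (fun i => ξ i) Q ∂ν := by
  have hint : ∀ f : C(E n, ℝ), Integrable (fun η => f η) ν := fun f => by
    obtain ⟨M, hM⟩ := (isCompact_closedBall (0 : E n) (2 * n)).exists_bound_of_continuousOn
      f.continuous.continuousOn
    refine Integrable.of_bound f.continuous.measurable.aestronglyMeasurable M ?_
    filter_upwards [hν] with η hη
    exact hM η (norm_le_of η hη)
  refine ⟨∑ α ∈ Q.support, MvPolynomial.monomial α (∫ η, (Q.coeff α) η ∂ν), ?_, fun ξ => ?_⟩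
  · refine (MvPolynomial.totalDegree_finsetSum _ _).trans (Finset.sup_le fun α hα => ?_)
    exact (MvPolynomial.totalDegree_monomial_le _ _).trans (MvPolynomial.le_totalDegree hα)
  · have h1 : ∀ η, MvPolynomial.eval₂ (evh η) (fun i => ξ i) Q =
        ∑ α ∈ Q.support, ((Q.coeff α) η) * ∏ i, ξ i ^ α i := fun η => by
      rw [MvPolynomial.eval₂_eq']
      refine Finset.sum_congr rfl fun α _ => ?_
      rw [evh_apply]
    simp only [h1]
    rw [integral_finsetSum _ fun α _ => (hint _).mul_const _]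
    rw [map_sum]
    refine Finset.sum_congr rfl fun α _ => ?_
    rw [MvPolynomial.eval_monomial, integral_mul_const, Finsupp.prod_fintype]
    intro i
    exact pow_zero _

/-- the kernel as a polynomial in the first variable -/
noncomputable def base (n : ℕ) (c : ℝ) : MvPolynomial (Fin n) C(E n, ℝ) :=
  MvPolynomial.C (ContinuousMap.const _ 1) -
    MvPolynomial.C (ContinuousMap.const _ c) *
      ∑ i, (MvPolynomial.X i - MvPolynomial.C ⟨fun η : E n => η i, by fun_prop⟩) ^ 2

theorem base_deg (c : ℝ) : (base n c).totalDegree ≤ 2 := by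
  unfold base
  refine (MvPolynomial.totalDegree_sub _ _).trans (max_le ?_ ?_)
  · rw [MvPolynomial.totalDegree_C]; norm_num
  · refine (MvPolynomial.totalDegree_mul _ _).trans ?_
    rw [MvPolynomial.totalDegree_C, zero_add]
    refine (MvPolynomial.totalDegree_finsetSum _ _).trans (Finset.sup_le fun i _ => ?_)
    refine (MvPolynomial.totalDegree_pow _ _).trans ?_
    have h1 : (MvPolynomial.X i - MvPolynomial.C (⟨fun η : E n => η i, by fun_prop⟩ : C(E n, ℝ)) :
        MvPolynomial (Fin n) C(E n, ℝ)).totalDegree ≤ 1 := by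
      refine (MvPolynomial.totalDegree_sub _ _).trans (max_le ?_ ?_)
      · rw [MvPolynomial.totalDegree_X]
      · rw [MvPolynomial.totalDegree_C]; norm_num
    omega

theorem base_ev (c : ℝ) (ξ η : E n) :
    MvPolynomial.eval₂ (evh η) (fun i => ξ i) (base n c) = 1 - c * ‖ξ - η‖ ^ 2 := by
  have h1 : MvPolynomial.eval₂ (evh η) (fun i => ξ i) (base n c) =
      MvPolynomial.eval₂Hom (evh η) (fun i => ξ i) (base n c) := rfl
  rw [h1, base, map_sub, map_mul, map_sum]
  simp only [map_pow, map_sub, MvPolynomial.eval₂Hom_C, MvPolynomial.eval₂Hom_X']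
  have h2 : ‖ξ - η‖ ^ 2 = ∑ i, (ξ i - evh η ⟨fun η : E n => η i, by fun_prop⟩) ^ 2 := by
    rw [EuclideanSpace.norm_sq_eq]
    refine Finset.sum_congr rfl fun i _ => ?_
    rw [Real.norm_eq_abs, sq_abs]
    rfl
  rw [← h2, evh_apply, evh_apply, ContinuousMap.const_apply, ContinuousMap.const_apply]

/-- composition with a polynomial in one variable -/
noncomputable def kpol (n : ℕ) (c : ℝ) (f : Polynomial ℝ) : MvPolynomial (Fin n) C(E n, ℝ) :=
  Polynomial.eval₂ (MvPolynomial.C.comp (algebraMap ℝ C(E n, ℝ))) (base n c) f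

theorem kpol_deg (c : ℝ) (f : Polynomial ℝ) : (kpol n c f).totalDegree ≤ 2 * f.natDegree := by
  unfold kpol
  rw [Polynomial.eval₂_eq_sum_range]
  refine (MvPolynomial.totalDegree_finsetSum _ _).trans (Finset.sup_le fun j hj => ?_)
  have hj' : j ≤ f.natDegree := by
    have := Finset.mem_range.1 hj
    omega
  refine (MvPolynomial.totalDegree_mul _ _).trans ?_
  rw [RingHom.comp_apply, MvPolynomial.totalDegree_C, zero_add]
  refine (MvPolynomial.totalDegree_pow _ _).trans ?_
  have := base_deg (n := n) c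
  nlinarith

theorem kpol_ev (c : ℝ) (f : Polynomial ℝ) (ξ η : E n) :
    MvPolynomial.eval₂ (evh η) (fun i => ξ i) (kpol n c f) = f.eval (1 - c * ‖ξ - η‖ ^ 2) := by
  have h1 : MvPolynomial.eval₂ (evh η) (fun i => ξ i) (kpol n c f) =
      MvPolynomial.eval₂Hom (evh η) (fun i => ξ i) (kpol n c f) := rfl
  rw [h1, kpol, Polynomial.hom_eval₂]
  have h2 : (MvPolynomial.eval₂Hom (evh η) fun i => ξ i).comp
      (MvPolynomial.C.comp (algebraMap ℝ C(E n, ℝ))) = RingHom.id ℝ := by
    ext r
    simp [evh]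
  have h3 : MvPolynomial.eval₂Hom (evh η) (fun i => ξ i) (base n c) = 1 - c * ‖ξ - η‖ ^ 2 :=
    base_ev c ξ η
  rw [h2, h3]
  rfl

end CP

/-- `ν` is a finite measure on the cube `[-2, 2]^n`. -/
theorem conv_poly (n N k : ℕ) (c : ℝ) (ν : Measure (EuclideanSpace ℝ (Fin n))) [IsFiniteMeasure ν]
    (hν : ∀ᵐ y ∂ν, ∀ i, |y i| ≤ 2) :
    ∃ P : MvPolynomial (Fin n) ℝ, P.totalDegree ≤ 4 * k * N ∧
      ∀ x : EuclideanSpace ℝ (Fin n), MvPolynomial.eval (fun i => x i) P =
        ∫ y, ((Polynomial.Chebyshev.U ℝ (N : ℤ)).eval (1 - c * ‖x - y‖ ^ 2) / (N + 1)) ^ (2 * k) ∂ν := by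
  set f : Polynomial ℝ := (Polynomial.C (1 / ((N : ℝ) + 1)) * Polynomial.Chebyshev.U ℝ (N : ℤ)) ^ (2 * k)
    with hf
  obtain ⟨P, hP1, hP2⟩ := CP.poly_int hν (CP.kpol n c f)
  refine ⟨P, ?_, ?_⟩
  · refine hP1.trans ((CP.kpol_deg c f).trans ?_)
    have h1 : f.natDegree ≤ 2 * k * N := by
      rw [hf]
      refine Polynomial.natDegree_pow_le.trans ?_
      refine Nat.mul_le_mul_left _ ?_
      refine (Polynomial.natDegree_C_mul_le _ _).trans ?_
      rw [Polynomial.Chebyshev.natDegree_U_natCast]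
    nlinarith
  · intro x
    rw [hP2]
    refine integral_congr_ae (Filter.Eventually.of_forall fun y => ?_)
    simp only
    rw [CP.kpol_ev, hf, Polynomial.eval_pow, Polynomial.eval_mul, Polynomial.eval_C]
    congr 1
    ring

end Pool.Agent.H222.KP
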