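import Mathlib

/-!
Subtask KP-F (owner helper222): integer translates of the cube `[-2, 2]^n` cover with multiplicity at
most `5 ^ n`.
-/

open MeasureTheory Set Metric
open scoped ENNReal NNReal Topology

namespace Pool.Agent.H222.KP

theorem card_icc (a : ℝ) : (Finset.Icc ⌈a - 2⌉ ⌊a + 2⌋).card ≤ 5 := by
  have h1 : ⌊a + 2⌋ = ⌊a⌋ + 2 := by exact_mod_cast Int.floor_add_ofNat a 2
  have h2 : ⌈a - 2⌉ = ⌈a⌉ - 2 := by exact_mod_cast Int.ceil_sub_ofNat a 2
  have h3 : ⌊a⌋ ≤ ⌈a⌉ := Int.floor_le_ceil a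
  rw [Int.card_Icc, h1, h2]
  omega

/-- Paper proof: the left side is `∫ h(y) #{m : y - m ∈ [-2,2]^n} dy` (`lintegral_tsum`, translation
invariance `lintegral_add_left_eq_self` with indicator functions), and for every `y` the set of these
`m` is contained in `Fintype.piFinset fun i => Finset.Icc ⌈y i - 2⌉ ⌊y i + 2⌋`, which has at most
`5 ^ n` elements. -/
theorem count (n : ℕ) {h : EuclideanSpace ℝ (Fin n) → ℝ≥0∞} (hh : Measurable h) :
    ∑' m : Fin n → ℤ, ∫⁻ y in {y : EuclideanSpace ℝ (Fin n) | ∀ i, |y i| ≤ 2},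
      h (WithLp.toLp 2 (fun i => (m i : ℝ)) + y) ≤ 5 ^ n * ∫⁻ y, h y := by
  obtain ⟨Q, hQ⟩ : ∃ Q : Set (EuclideanSpace ℝ (Fin n)), Q = {y | ∀ i, |y i| ≤ 2} := ⟨_, rfl⟩
  have hQm : MeasurableSet Q := by
    rw [hQ]
    have h1 : {y : EuclideanSpace ℝ (Fin n) | ∀ i, |y i| ≤ 2} =
        ⋂ i, {y : EuclideanSpace ℝ (Fin n) | |y i| ≤ 2} := by
      ext y
      simp
    rw [h1]
    refine MeasurableSet.iInter fun i => ?_
    exact (isClosed_le (by fun_prop) continuous_const).measurableSet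
  rw [← hQ]
  obtain ⟨v, hv⟩ : ∃ v : (Fin n → ℤ) → EuclideanSpace ℝ (Fin n),
      ∀ m, v m = WithLp.toLp 2 (fun i => (m i : ℝ)) := ⟨_, fun _ => rfl⟩
  have hvi : ∀ m i, v m i = (m i : ℝ) := fun m i => by rw [hv]
  obtain ⟨g, hg⟩ : ∃ g : (Fin n → ℤ) → EuclideanSpace ℝ (Fin n) → ℝ≥0∞,
      ∀ m, g m = ({z | z - v m ∈ Q}).indicator h := ⟨_, fun _ => rfl⟩
  have hSm : ∀ m, MeasurableSet {z | z - v m ∈ Q} := fun m =>
    hQm.preimage (measurable_id.sub_const (v m))
  have hgm : ∀ m, Measurable (g m) := fun m => by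
    rw [hg]
    exact hh.indicator (hSm m)
  have h1 : ∀ m : Fin n → ℤ, ∫⁻ y in Q, h (WithLp.toLp 2 (fun i => (m i : ℝ)) + y) =
      ∫⁻ y, g m y := by
    intro m
    rw [← hv, ← lintegral_indicator hQm, ← lintegral_add_left_eq_self (g m) (v m)]
    refine lintegral_congr fun y => ?_
    rw [hg]
    by_cases hy : y ∈ Q
    · rw [Set.indicator_of_mem hy, Set.indicator_of_mem]
      show v m + y - v m ∈ Q
      rwa [add_sub_cancel_left]
    · rw [Set.indicator_of_notMem hy, Set.indicator_of_notMem]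
      show ¬ (v m + y - v m ∈ Q)
      rwa [add_sub_cancel_left]
  rw [tsum_congr h1, ← lintegral_tsum fun m => (hgm m).aemeasurable]
  have h2 : ∀ y, ∑' m, g m y ≤ 5 ^ n * h y := by
    intro y
    have h3 : ∀ m ∉ Fintype.piFinset (fun i => Finset.Icc ⌈y i - 2⌉ ⌊y i + 2⌋), g m y = 0 := by
      intro m hm
      rw [hg]
      refine Set.indicator_of_notMem ?_ _
      intro hz
      apply hm
      rw [Fintype.mem_piFinset]
      intro i
      have hz' : y - v m ∈ Q := hz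
      rw [hQ] at hz'
      have h4 : |(y - v m) i| ≤ 2 := hz' i
      have h5 : (y - v m) i = y i - m i := by rw [PiLp.sub_apply, hvi]
      rw [h5, abs_le] at h4
      rw [Finset.mem_Icc, Int.ceil_le, Int.le_floor]
      constructor <;> linarith
    rw [tsum_eq_sum h3]
    have h6 : ∀ m ∈ Fintype.piFinset (fun i => Finset.Icc ⌈y i - 2⌉ ⌊y i + 2⌋), g m y ≤ h y := by
      intro m _
      rw [hg]
      exact Set.indicator_le_self _ _ _
    refine (Finset.sum_le_card_nsmul _ _ _ h6).trans ?_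
    rw [nsmul_eq_mul]
    gcongr
    have h7 : (Fintype.piFinset (fun i => Finset.Icc ⌈y i - 2⌉ ⌊y i + 2⌋)).card ≤ 5 ^ n := by
      rw [Fintype.card_piFinset]
      refine (Finset.prod_le_pow_card _ _ 5 fun i _ => card_icc (y i)).trans (le_of_eq ?_)
      rw [Finset.card_univ, Fintype.card_fin]
    exact_mod_cast h7
  refine (lintegral_mono h2).trans (le_of_eq ?_)
  exact lintegral_const_mul _ hh

/-- the nearest integer vector: `m i = round (b i)`, `abs_sub_round` -/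
theorem nearest (n : ℕ) (b : EuclideanSpace ℝ (Fin n)) :
    ∃ m : Fin n → ℤ, ∀ i, |(b - WithLp.toLp 2 (fun i => (m i : ℝ))) i| ≤ 1 / 2 :=
  ⟨fun i => round (b i), fun i => abs_sub_round (b i)⟩

end Pool.Agent.H222.KP
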