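import Mathlib

/-!
Subtask KP-B (owner helper222): bounds for the radial polynomial kernel
`ker N k c v = (U_N (1 - c |v|^2) / (N + 1)) ^ (2 k)`, `U_N` the Chebyshev polynomial of the second
kind (`U_N (cos θ) sin θ = sin ((N + 1) θ)`, Mathlib: `Polynomial.Chebyshev.U_real_cos`).
-/

open MeasureTheory Set Metric
open scoped ENNReal NNReal Topology

namespace Pool.Agent.H222.KP

/-- the kernel -/
noncomputable def ker {n : ℕ} (N k : ℕ) (c : ℝ) (v : EuclideanSpace ℝ (Fin n)) : ℝ :=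
  ((Polynomial.Chebyshev.U ℝ (N : ℤ)).eval (1 - c * ‖v‖ ^ 2) / (N + 1)) ^ (2 * k)

theorem KPB_abs_sin (n : ℕ) (θ : ℝ) : |Real.sin (n * θ)| ≤ n * |Real.sin θ| := by
  induction n with
  | zero => simp
  | succ n ih =>
    have h1 : ((n + 1 : ℕ) : ℝ) * θ = n * θ + θ := by push_cast; ring
    rw [h1, Real.sin_add]
    have h2 : |Real.sin (n * θ) * Real.cos θ| ≤ |Real.sin (n * θ)| := by
      rw [abs_mul]
      exact mul_le_of_le_one_right (abs_nonneg _) (Real.abs_cos_le_one θ)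
    have h3 : |Real.cos (n * θ) * Real.sin θ| ≤ |Real.sin θ| := by
      rw [abs_mul]
      exact mul_le_of_le_one_left (abs_nonneg _) (Real.abs_cos_le_one _)
    have h4 := abs_add_le (Real.sin (n * θ) * Real.cos θ) (Real.cos (n * θ) * Real.sin θ)
    push_cast
    linarith

theorem KPB_U_sin (N : ℕ) (θ : ℝ) : (Polynomial.Chebyshev.U ℝ (N : ℤ)).eval (Real.cos θ) *
    Real.sin θ = Real.sin ((N + 1) * θ) := by
  have h := Polynomial.Chebyshev.U_real_cos θ (N : ℤ)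
  rw [h]
  push_cast
  rfl

theorem KPB_U_one (N : ℕ) : (Polynomial.Chebyshev.U ℝ (N : ℤ)).eval 1 = N + 1 := by
  have h := Polynomial.Chebyshev.U_eval_one ℝ (N : ℤ)
  rw [h]
  push_cast
  rfl

theorem KPB_U_neg (N : ℕ) : |(Polynomial.Chebyshev.U ℝ (N : ℤ)).eval (-1)| = N + 1 := by
  have h := Polynomial.Chebyshev.U_eval_neg_one ℝ (N : ℤ)
  rw [h, abs_mul]
  have h1 : |(((N : ℤ).negOnePow : ℤ) : ℝ)| = 1 := by
    have h2 := Int.abs_negOnePow (N : ℤ)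
    exact_mod_cast h2
  have h2 : |((N : ℤ) : ℝ) + 1| = (N : ℝ) + 1 := by
    push_cast
    exact abs_of_nonneg (by positivity)
  rw [h2]
  have h3 : |(((N : ℤ).negOnePow : ℤ) : ℝ)| * ((N : ℝ) + 1) = (N : ℝ) + 1 := by
    rw [h1, one_mul]
  exact h3

theorem KPB_abs_U (N : ℕ) {t : ℝ} (h1 : -1 ≤ t) (h2 : t ≤ 1) :
    |(Polynomial.Chebyshev.U ℝ (N : ℤ)).eval t| ≤ N + 1 := by
  have hc := Real.cos_arccos h1 h2
  have hs := KPB_U_sin N (Real.arccos t)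
  rw [hc] at hs
  by_cases h0 : Real.sin (Real.arccos t) = 0
  · have h3 := Real.sin_sq_add_cos_sq (Real.arccos t)
    rw [h0, hc] at h3
    have h4 : (t - 1) * (t + 1) = 0 := by nlinarith
    rcases mul_eq_zero.1 h4 with h | h
    · have h5 : t = 1 := by linarith
      rw [h5, KPB_U_one]
      exact le_of_eq (abs_of_nonneg (by positivity))
    · have h5 : t = -1 := by linarith
      rw [h5, KPB_U_neg]
  · have h3 := KPB_abs_sin (N + 1) (Real.arccos t)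
    push_cast at h3
    rw [← hs, abs_mul] at h3
    exact le_of_mul_le_mul_right h3 (abs_pos.2 h0)

/-- `|U_N t| ≤ N + 1` for `|t| ≤ 1` (Mathlib may have this) -/
theorem ker_le_one {n : ℕ} (N k : ℕ) {c : ℝ} (hc : 0 ≤ c) (v : EuclideanSpace ℝ (Fin n))
    (hv : c * ‖v‖ ^ 2 ≤ 2) : 0 ≤ ker N k c v ∧ ker N k c v ≤ 1 := by
  have hu : 0 ≤ c * ‖v‖ ^ 2 := by positivity
  have h1 := KPB_abs_U N (t := 1 - c * ‖v‖ ^ 2) (by linarith) (by linarith)
  have hN : (0 : ℝ) < N + 1 := by positivity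
  unfold ker
  rw [pow_mul]
  refine ⟨by positivity, pow_le_one₀ (by positivity) ?_⟩
  rw [sq_le_one_iff_abs_le_one, abs_div, abs_of_pos hN, div_le_one hN]
  exact h1

/-- `U_N t ^ 2 * (1 - t ^ 2) ≤ 1`, and `1 - t ^ 2 = u (2 - u) ≥ u` for `t = 1 - u`,
`u = c |v|^2 ≤ 1` -/
theorem ker_decay {n : ℕ} (N k : ℕ) {c : ℝ} (hc : 0 ≤ c) (v : EuclideanSpace ℝ (Fin n))
    (hv : c * ‖v‖ ^ 2 ≤ 1) : ker N k c v * (c * (N + 1) ^ 2 * ‖v‖ ^ 2) ^ k ≤ 1 := by
  have hu : 0 ≤ c * ‖v‖ ^ 2 := by positivity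
  have hN : (0 : ℝ) < N + 1 := by positivity
  obtain ⟨u, hu'⟩ : ∃ u : ℝ, u = c * ‖v‖ ^ 2 := ⟨_, rfl⟩
  rw [← hu'] at hu hv
  have hc1 : Real.cos (Real.arccos (1 - u)) = 1 - u :=
    Real.cos_arccos (by linarith) (by linarith)
  have hs := KPB_U_sin N (Real.arccos (1 - u))
  rw [hc1] at hs
  obtain ⟨U, hU⟩ : ∃ U : ℝ, U = (Polynomial.Chebyshev.U ℝ (N : ℤ)).eval (1 - u) := ⟨_, rfl⟩
  rw [← hU] at hs
  have h3 := Real.sin_sq_add_cos_sq (Real.arccos (1 - u))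
  rw [hc1] at h3
  have h4 : U ^ 2 * Real.sin (Real.arccos (1 - u)) ^ 2 ≤ 1 := by
    rw [← mul_pow, hs]
    exact Real.sin_sq_le_one _
  have h5 : Real.sin (Real.arccos (1 - u)) ^ 2 = u * (2 - u) := by nlinarith
  rw [h5] at h4
  have h6 : U ^ 2 * u ≤ 1 := by
    refine le_trans ?_ h4
    have h7 : u ≤ u * (2 - u) := by nlinarith
    exact mul_le_mul_of_nonneg_left h7 (sq_nonneg U)
  unfold ker
  rw [← hu', ← hU, pow_mul, ← mul_pow]
  refine pow_le_one₀ (by positivity) ?_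
  have h8 : (U / (N + 1)) ^ 2 * (c * (N + 1) ^ 2 * ‖v‖ ^ 2) = U ^ 2 * u := by
    rw [hu']
    field_simp
  rw [h8]
  exact h6

/-- with `θ = arccos t`, `t = 1 - c |v|^2`: `1 - cos θ ≥ (2 / π ^ 2) θ ^ 2` for `0 ≤ θ ≤ π`, so
`(N + 1) θ ≤ π / 2`, `sin ((N + 1) θ) ≥ (2 / π) (N + 1) θ ≥ (2 / π) (N + 1) sin θ`; the case `θ = 0`
is `U_N 1 = N + 1`.  Finally `2 / π ≥ 1 / 2`. -/
theorem ker_big {n : ℕ} (N k : ℕ) {c : ℝ} (hc : 0 ≤ c) (v : EuclideanSpace ℝ (Fin n))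
    (hv : c * (N + 1) ^ 2 * ‖v‖ ^ 2 ≤ 1 / 2) : (1 / 2 : ℝ) ^ (2 * k) ≤ ker N k c v := by
  have hu : 0 ≤ c * ‖v‖ ^ 2 := by positivity
  have hN : (0 : ℝ) < N + 1 := by positivity
  have hN1 : (1 : ℝ) ≤ N + 1 := by
    have : (0 : ℝ) ≤ N := Nat.cast_nonneg N
    linarith
  obtain ⟨u, hu'⟩ : ∃ u : ℝ, u = c * ‖v‖ ^ 2 := ⟨_, rfl⟩
  rw [← hu'] at hu
  have hv2 : u * (N + 1) ^ 2 ≤ 1 / 2 := by
    rw [hu']
    linarith
  have hu1 : u ≤ 1 / 2 := by
    have h1 : u * 1 ≤ u * (N + 1) ^ 2 := mul_le_mul_of_nonneg_left (one_le_pow₀ hN1) hu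
    linarith
  have hc1 : Real.cos (Real.arccos (1 - u)) = 1 - u :=
    Real.cos_arccos (by linarith) (by linarith)
  have hs := KPB_U_sin N (Real.arccos (1 - u))
  rw [hc1] at hs
  obtain ⟨U, hU⟩ : ∃ U : ℝ, U = (Polynomial.Chebyshev.U ℝ (N : ℤ)).eval (1 - u) := ⟨_, rfl⟩
  rw [← hU] at hs
  have hθ0 := Real.arccos_nonneg (1 - u)
  have hθ1 := Real.arccos_le_pi (1 - u)
  have hsin0 : 0 ≤ Real.sin (Real.arccos (1 - u)) := Real.sin_nonneg_of_nonneg_of_le_pi hθ0 hθ1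
  have h3 := Real.sin_sq_add_cos_sq (Real.arccos (1 - u))
  rw [hc1] at h3
  obtain ⟨θ, hθ⟩ : ∃ θ : ℝ, θ = Real.arccos (1 - u) := ⟨_, rfl⟩
  rw [← hθ] at hs hθ0 hθ1 hsin0 h3 hc1
  have hπ := Real.pi_pos
  have key : (N + 1) / 2 ≤ U := by
    rcases hsin0.eq_or_lt with h0 | h0
    · have h4 : u * (2 - u) = 0 := by
        rw [← h0] at h3
        nlinarith
      have h5 : u = 0 := by
        rcases mul_eq_zero.1 h4 with h | h
        · exact h
        · linarith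
      rw [hU, h5, sub_zero, KPB_U_one]
      linarith
    · have h4 : Real.cos θ ≤ 1 - 2 / Real.pi ^ 2 * θ ^ 2 :=
        Real.cos_le_one_sub_mul_cos_sq (by rw [abs_of_nonneg hθ0]; exact hθ1)
      rw [hc1] at h4
      have h5 : 2 / Real.pi ^ 2 * θ ^ 2 ≤ u := by linarith
      have h6 : ((N + 1) * θ) ^ 2 ≤ (Real.pi / 2) ^ 2 := by
        have h7 : 2 / Real.pi ^ 2 * θ ^ 2 * (N + 1) ^ 2 ≤ 1 / 2 :=
          le_trans (mul_le_mul_of_nonneg_right h5 (by positivity)) hv2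
        have h8 : Real.pi ^ 2 / 2 * (2 / Real.pi ^ 2 * θ ^ 2 * (N + 1) ^ 2) ≤
            Real.pi ^ 2 / 2 * (1 / 2) := mul_le_mul_of_nonneg_left h7 (by positivity)
        have h9 : Real.pi ^ 2 / 2 * (2 / Real.pi ^ 2 * θ ^ 2 * (N + 1) ^ 2) =
            ((N + 1) * θ) ^ 2 := by
          field_simp
        rw [h9] at h8
        linarith
      have h7 : (N + 1) * θ ≤ Real.pi / 2 := by
        have h8 := abs_le_of_sq_le_sq h6 (by positivity)
        exact (le_abs_self _).trans h8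
      have h8 : 2 / Real.pi * ((N + 1) * θ) ≤ Real.sin ((N + 1) * θ) :=
        Real.mul_le_sin (by positivity) h7
      have h9 : Real.sin θ ≤ θ := Real.sin_le hθ0
      have h10 : (1 : ℝ) / 2 ≤ 2 / Real.pi := by
        rw [div_le_div_iff₀ (by norm_num) hπ]
        have := Real.pi_le_four
        linarith
      have h11 : (N + 1) / 2 * Real.sin θ ≤ U * Real.sin θ := by
        rw [hs]
        refine le_trans ?_ h8
        calc (N + 1) / 2 * Real.sin θ = 1 / 2 * ((N + 1) * Real.sin θ) := by ring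
          _ ≤ 2 / Real.pi * ((N + 1) * Real.sin θ) :=
            mul_le_mul_of_nonneg_right h10 (by positivity)
          _ ≤ 2 / Real.pi * ((N + 1) * θ) := by gcongr
      exact le_of_mul_le_mul_right h11 h0
  unfold ker
  rw [← hu', ← hU]
  have h12 : (1 : ℝ) / 2 ≤ U / (N + 1) := by
    rw [div_le_div_iff₀ (by norm_num) hN]
    linarith
  exact pow_le_pow_left₀ (by norm_num) h12 _

/-- the kernel at the origin -/
theorem ker_zero {n : ℕ} (N k : ℕ) (c : ℝ) :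
    ker N k c (0 : EuclideanSpace ℝ (Fin n)) = 1 := by
  have hN : (0 : ℝ) < N + 1 := by positivity
  unfold ker
  rw [norm_zero, zero_pow two_ne_zero, mul_zero, sub_zero, KPB_U_one, div_self hN.ne', one_pow]

end Pool.Agent.H222.KP
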