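import Mathlib

/-!
Subtask KP-A1 (owner helper222): interior Nikolskii inequality from `L^1` to `L^∞`, one variable.
-/

open MeasureTheory Set Metric
open scoped ENNReal NNReal Topology

namespace Pool.Agent.H222.KP

namespace KPA1

open Polynomial Polynomial.Chebyshev

/-- expansion in Chebyshev polynomials -/
theorem exists_cheb (N : ℕ) : ∀ s : Polynomial ℝ, s.natDegree ≤ N →
    ∃ b : ℕ → ℝ, s = ∑ k ∈ Finset.range (N + 1), Polynomial.C (b k) * T ℝ (k : ℤ) := by
  induction N with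
  | zero =>
    intro s hs
    refine ⟨fun _ => s.coeff 0, ?_⟩
    have h := Polynomial.eq_C_of_natDegree_le_zero hs
    rw [Finset.sum_range_succ, Finset.sum_range_zero, zero_add, Nat.cast_zero, T_zero, mul_one]
    exact h
  | succ N ih =>
    intro s hs
    have hT : (T ℝ ((N + 1 : ℕ) : ℤ)).natDegree = N + 1 := by
      rw [natDegree_T, Int.natAbs_natCast]
    have hne : (T ℝ ((N + 1 : ℕ) : ℤ)) ≠ 0 := by
      intro h
      rw [h, natDegree_zero] at hT
      omega
    have hlc : (T ℝ ((N + 1 : ℕ) : ℤ)).coeff (N + 1) ≠ 0 := by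
      have h1 := leadingCoeff_ne_zero.2 hne
      rw [leadingCoeff, hT] at h1
      exact h1
    set c : ℝ := s.coeff (N + 1) / (T ℝ ((N + 1 : ℕ) : ℤ)).coeff (N + 1) with hc
    have hdeg : (s - Polynomial.C c * T ℝ ((N + 1 : ℕ) : ℤ)).natDegree ≤ N := by
      rw [natDegree_le_iff_coeff_eq_zero]
      intro j hj
      rcases Nat.lt_or_ge (N + 1) j with h1 | h1
      · rw [coeff_sub, coeff_C_mul, coeff_eq_zero_of_natDegree_lt (lt_of_le_of_lt hs h1),
          coeff_eq_zero_of_natDegree_lt (by rw [hT]; exact h1), mul_zero, sub_zero]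
      · have h2 : j = N + 1 := by omega
        rw [h2, coeff_sub, coeff_C_mul, hc, div_mul_cancel₀ _ hlc, sub_self]
    obtain ⟨b, hb⟩ := ih _ hdeg
    refine ⟨fun k => if k = N + 1 then c else b k, ?_⟩
    rw [Finset.sum_range_succ]
    have h4 : Polynomial.C ((fun k => if k = N + 1 then c else b k) (N + 1)) = Polynomial.C c := by
      simp only [if_true]
    rw [h4]
    have h3 : ∑ k ∈ Finset.range (N + 1), Polynomial.C (if k = N + 1 then c else b k) * T ℝ (k : ℤ) =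
        ∑ k ∈ Finset.range (N + 1), Polynomial.C (b k) * T ℝ (k : ℤ) :=
      Finset.sum_congr rfl fun k hk => by
        rw [if_neg (by have := Finset.mem_range.1 hk; omega)]
    show s = ∑ k ∈ Finset.range (N + 1), Polynomial.C (if k = N + 1 then c else b k) *
      T ℝ (k : ℤ) + Polynomial.C c * T ℝ ((N + 1 : ℕ) : ℤ)
    rw [h3, ← hb, sub_add_cancel]

theorem coef (N : ℕ) (b : ℕ → ℝ) (k : ℕ) (hk : k ≤ N) :
    ∃ c : ℝ, Real.pi / 2 ≤ c ∧
      ∫ x, (∑ j ∈ Finset.range (N + 1), Polynomial.C (b j) * T ℝ (j : ℤ)).eval x *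
        (T ℝ (k : ℤ)).eval x ∂measureT = b k * c := by
  have h1 : ∀ j : ℕ, Integrable (fun x => b j * ((T ℝ (j : ℤ)).eval x * (T ℝ (k : ℤ)).eval x))
      measureT := fun j => integrable_measureT (by fun_prop)
  have h2 : ∫ x, (∑ j ∈ Finset.range (N + 1), Polynomial.C (b j) * T ℝ (j : ℤ)).eval x *
        (T ℝ (k : ℤ)).eval x ∂measureT =
      ∑ j ∈ Finset.range (N + 1), b j *
        ∫ x, (T ℝ (j : ℤ)).eval x * (T ℝ (k : ℤ)).eval x ∂measureT := by
    have h3 : ∀ x : ℝ, (∑ j ∈ Finset.range (N + 1), Polynomial.C (b j) * T ℝ (j : ℤ)).eval x *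
        (T ℝ (k : ℤ)).eval x = ∑ j ∈ Finset.range (N + 1),
          b j * ((T ℝ (j : ℤ)).eval x * (T ℝ (k : ℤ)).eval x) := by
      intro x
      rw [eval_finsetSum, Finset.sum_mul]
      refine Finset.sum_congr rfl fun j _ => ?_
      rw [eval_mul, eval_C]
      ring
    simp only [h3]
    rw [integral_finsetSum _ fun j _ => h1 j]
    exact Finset.sum_congr rfl fun j _ => integral_const_mul _ _
  rw [h2, Finset.sum_eq_single k]
  · rcases Nat.eq_zero_or_pos k with h0 | h0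
    · subst h0
      refine ⟨Real.pi, by linarith [Real.pi_pos], ?_⟩
      rw [Nat.cast_zero, integral_eval_T_real_mul_self_measureT_zero]
    · refine ⟨Real.pi / 2, le_rfl, ?_⟩
      rw [integral_T_real_mul_self_measureT_of_ne_zero (by omega)]
  · intro j _ hjk
    rw [integral_eval_T_real_mul_eval_T_real_measureT_of_ne hjk, mul_zero]
  · intro h
    exact absurd (Finset.mem_range.2 (by omega)) h

/-- bound for the weighted integral -/
theorem wbound (r : Polynomial ℝ) (k : ℕ) :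
    |∫ x, (r * (1 - Polynomial.X ^ 2)).eval x * (T ℝ (k : ℤ)).eval x ∂measureT| ≤
      ∫ x in (-1 : ℝ)..1, |r.eval x| := by
  have h0 : |∫ x, (r * (1 - Polynomial.X ^ 2)).eval x * (T ℝ (k : ℤ)).eval x ∂measureT| ≤
      ∫ x, ‖(r * (1 - Polynomial.X ^ 2)).eval x * (T ℝ (k : ℤ)).eval x‖ ∂measureT := by
    rw [← Real.norm_eq_abs]
    exact norm_integral_le_integral_norm _
  refine h0.trans ?_
  rw [integral_measureT]
  have hI : IntervalIntegrable (fun x : ℝ => ‖(r * (1 - Polynomial.X ^ 2)).eval x *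
      (T ℝ (k : ℤ)).eval x‖ * √(1 - x ^ 2)⁻¹) volume (-1) 1 :=
    intervalIntegrable_sqrt_one_sub_sq_inv.continuousOn_mul (by fun_prop)
  have hJ : IntervalIntegrable (fun x : ℝ => |r.eval x|) volume (-1) 1 :=
    Continuous.intervalIntegrable (by fun_prop) _ _
  refine intervalIntegral.integral_mono_on (by norm_num) hI hJ ?_
  intro x hx
  have hx1 : |x| ≤ 1 := abs_le.2 hx
  have hT := abs_eval_T_real_le_one (k : ℤ) hx1
  have hx2 : 0 ≤ 1 - x ^ 2 := by
    have := (sq_le_one_iff_abs_le_one x).2 hx1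
    linarith
  have e : (r * (1 - Polynomial.X ^ 2)).eval x = r.eval x * (1 - x ^ 2) := by
    simp
  rw [e, Real.norm_eq_abs, abs_mul, abs_mul, abs_of_nonneg hx2]
  have h1 : (1 - x ^ 2) * √(1 - x ^ 2)⁻¹ ≤ 1 := by
    rcases hx2.eq_or_lt with h | h
    · rw [← h]
      simp
    · rw [Real.sqrt_inv, ← div_eq_mul_inv, Real.div_sqrt]
      rw [Real.sqrt_le_one]
      have : 0 ≤ x ^ 2 := sq_nonneg x
      linarith
  have h2 : 0 ≤ √(1 - x ^ 2)⁻¹ := Real.sqrt_nonneg _
  calc |r.eval x| * (1 - x ^ 2) * |(T ℝ (k : ℤ)).eval x| * √(1 - x ^ 2)⁻¹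
      = |r.eval x| * (|(T ℝ (k : ℤ)).eval x| * ((1 - x ^ 2) * √(1 - x ^ 2)⁻¹)) := by ring
    _ ≤ |r.eval x| * (1 * 1) := by
        refine mul_le_mul_of_nonneg_left ?_ (abs_nonneg _)
        exact mul_le_mul hT h1 (mul_nonneg hx2 h2) zero_le_one
    _ = |r.eval x| := by ring

theorem real_bound (r : Polynomial ℝ) (M : ℕ) (hr : r.natDegree ≤ M) (x : ℝ) (hx : |x| ≤ 1 / 2) :
    |r.eval x| ≤ 4 * (M + 1) * ∫ y in (-1 : ℝ)..1, |r.eval y| := by
  set J : ℝ := ∫ y in (-1 : ℝ)..1, |r.eval y| with hJ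
  have hJ0 : 0 ≤ J := intervalIntegral.integral_nonneg (by norm_num) fun y _ => abs_nonneg _
  have hdeg : (r * (1 - Polynomial.X ^ 2)).natDegree ≤ M + 2 := by
    refine natDegree_mul_le.trans (Nat.add_le_add hr ?_)
    refine (natDegree_sub_le _ _).trans ?_
    simp
  obtain ⟨b, hb⟩ := exists_cheb (M + 2) _ hdeg
  have hbk : ∀ k ∈ Finset.range (M + 2 + 1), |b k| ≤ J := by
    intro k hk
    obtain ⟨c, hc, he⟩ := coef (M + 2) b k (by have := Finset.mem_range.1 hk; omega)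
    have h1 := wbound r k
    rw [hb, he, abs_mul] at h1
    have h2 : 1 ≤ |c| := by
      have h3 := Real.pi_gt_three
      rw [abs_of_nonneg (by linarith)]
      linarith
    have h3 : |b k| ≤ |b k| * |c| := le_mul_of_one_le_right (abs_nonneg _) h2
    exact h3.trans h1
  have hx1 : |x| ≤ 1 := by linarith
  have h4 : |(r * (1 - Polynomial.X ^ 2)).eval x| ≤ (M + 3) * J := by
    rw [hb, eval_finsetSum]
    refine (Finset.abs_sum_le_sum_abs _ _).trans ?_
    have h5 : ∀ k ∈ Finset.range (M + 2 + 1), |(Polynomial.C (b k) * T ℝ (k : ℤ)).eval x| ≤ J := by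
      intro k hk
      rw [eval_mul, eval_C, abs_mul]
      have h6 := abs_eval_T_real_le_one (k : ℤ) hx1
      calc |b k| * |(T ℝ (k : ℤ)).eval x| ≤ J * 1 :=
            mul_le_mul (hbk k hk) h6 (abs_nonneg _) hJ0
        _ = J := mul_one J
    refine (Finset.sum_le_sum h5).trans (le_of_eq ?_)
    rw [Finset.sum_const, Finset.card_range, nsmul_eq_mul]
    push_cast
    ring
  have e : (r * (1 - Polynomial.X ^ 2)).eval x = r.eval x * (1 - x ^ 2) := by
    simp
  have h7 : 3 / 4 ≤ 1 - x ^ 2 := by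
    have h8 : x ^ 2 ≤ (1 / 2) ^ 2 := by
      rw [← sq_abs x]
      exact pow_le_pow_left₀ (abs_nonneg _) hx 2
    norm_num at h8
    linarith
  rw [e, abs_mul, abs_of_nonneg (by linarith : (0 : ℝ) ≤ 1 - x ^ 2)] at h4
  have h9 : |r.eval x| * (3 / 4) ≤ |r.eval x| * (1 - x ^ 2) :=
    mul_le_mul_of_nonneg_left h7 (abs_nonneg _)
  have hM : (0 : ℝ) ≤ M := Nat.cast_nonneg M
  have h10 : 0 ≤ (M : ℝ) * J := mul_nonneg hM hJ0
  nlinarith

end KPA1

/-- Paper proof.  Put `r t = p (2 t)` (degree `≤ M`), so that it suffices to show, for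
`|x| ≤ 1 / 2`, `|r x| ≤ 4 (M + 1) ∫_{-1}^{1} |r|`.  Let `s t = r t * (1 - t ^ 2)`, degree `≤ M + 2`,
and write `s = ∑_{k ≤ M + 2} b k T_k` with the Chebyshev polynomials `T_k` (they have degree `k`).
By orthogonality with respect to `dt / √(1 - t ^ 2)` (Mathlib:
`Mathlib/Analysis/SpecialFunctions/Trigonometric/Chebyshev/Orthogonality.lean`,
`integral_eval_T_real_mul_eval_T_real_measureT_of_ne`, `integral_T_real_mul_self_measureT_of_ne_zero`,
`integral_eval_T_real_mul_self_measureT_zero`, `integral_measureT`),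
`|b k| ≤ (2 / π) ∫ |r t| (1 - t ^ 2) / √(1 - t ^ 2) dt ≤ ∫_{-1}^{1} |r|`, and so
`(3 / 4) |r x| ≤ |s x| ≤ ∑_k |b k| ≤ (M + 3) ∫_{-1}^{1} |r|`, which gives the claim as
`(4 / 3) (M + 3) ≤ 4 (M + 1)`. -/
theorem nik1 (p : Polynomial ℝ) (M : ℕ) (hp : p.natDegree ≤ M) (x : ℝ) (hx : |x| ≤ 1) :
    ‖p.eval x‖ₑ ≤ ENNReal.ofReal (2 * (M + 1)) * ∫⁻ y in Icc (-2 : ℝ) 2, ‖p.eval y‖ₑ := by
  have hInt : Integrable (fun y : ℝ => p.eval y) (volume.restrict (Icc (-2 : ℝ) 2)) := by
    have : ContinuousOn (fun y : ℝ => p.eval y) (Icc (-2 : ℝ) 2) := by fun_prop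
    exact this.integrableOn_Icc
  rw [← ofReal_integral_norm_eq_lintegral_enorm hInt, ← ENNReal.ofReal_mul (by positivity),
    ← ofReal_norm]
  refine ENNReal.ofReal_le_ofReal ?_
  have h1 := KPA1.real_bound (p.comp (Polynomial.C 2 * Polynomial.X)) M (by
    refine Polynomial.natDegree_comp_le.trans ?_
    have : (Polynomial.C (2 : ℝ) * Polynomial.X).natDegree ≤ 1 := by
      refine Polynomial.natDegree_mul_le.trans ?_
      simp
    calc p.natDegree * (Polynomial.C (2 : ℝ) * Polynomial.X).natDegree ≤ M * 1 :=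
          Nat.mul_le_mul hp this
      _ = M := mul_one M) (x / 2) (by
        rw [abs_div, abs_of_pos (by norm_num : (0 : ℝ) < 2)]
        linarith)
  have h2 : ∀ y : ℝ, (p.comp (Polynomial.C 2 * Polynomial.X)).eval y = p.eval (2 * y) := by
    intro y
    rw [Polynomial.eval_comp, Polynomial.eval_mul, Polynomial.eval_C, Polynomial.eval_X]
  simp only [h2] at h1
  have h3 : ∫ y in (-1 : ℝ)..1, |p.eval (2 * y)| = (1 / 2) * ∫ y in Icc (-2 : ℝ) 2, ‖p.eval y‖ := by
    have h4 := intervalIntegral.integral_comp_mul_left (a := (-1 : ℝ)) (b := 1)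
      (fun y : ℝ => |p.eval y|) (c := (2 : ℝ)) (by norm_num)
    rw [h4, integral_Icc_eq_integral_Ioc, ← intervalIntegral.integral_of_le (by norm_num)]
    simp only [smul_eq_mul, Real.norm_eq_abs]
    norm_num
  rw [h3] at h1
  have h5 : 2 * (x / 2) = x := by ring
  rw [h5] at h1
  rw [Real.norm_eq_abs]
  refine h1.trans (le_of_eq ?_)
  ring

end Pool.Agent.H222.KP
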