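import Mathlib

/-!
Subtask KP-A2 (owner helper222): interior Nikolskii inequality from `L^1` to `L^∞`, several
variables, from the case of one variable.
-/

open MeasureTheory Set Metric
open scoped ENNReal NNReal Topology

namespace Pool.Agent.H222.KP

/-- the restriction of a polynomial to a coordinate line -/
lemma line_poly (n M : ℕ) (P : MvPolynomial (Fin n) ℝ) (hP : P.totalDegree ≤ M)
    (z : Fin n → ℝ) (i : Fin n) : ∃ q : Polynomial ℝ, q.natDegree ≤ M ∧
      ∀ t : ℝ, q.eval t = MvPolynomial.eval (Function.update z i t) P := by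
  refine ⟨MvPolynomial.aeval (Function.update (fun j => Polynomial.C (z j)) i Polynomial.X) P,
    ?_, ?_⟩
  · have h := MvPolynomial.aeval_natDegree_le P hP
      (Function.update (fun j => Polynomial.C (z j)) i Polynomial.X) (n := 1) (by
        intro j
        by_cases hj : j = i
        · rw [hj, Function.update_self]
          exact Polynomial.natDegree_X_le
        · rw [Function.update_of_ne hj, Polynomial.natDegree_C]
          exact Nat.zero_le _)
    rw [mul_one] at h
    exact h
  · intro t
    have h1 := MvPolynomial.map_aeval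
      (Function.update (fun j => Polynomial.C (z j)) i Polynomial.X)
      (Polynomial.evalRingHom t) P
    have h2 : (Polynomial.evalRingHom t).comp (algebraMap ℝ (Polynomial ℝ)) = RingHom.id ℝ := by
      ext a
      simp
    have h3 : (fun j => (Polynomial.evalRingHom t)
        (Function.update (fun j => Polynomial.C (z j)) i Polynomial.X j)) =
        Function.update z i t := by
      funext j
      by_cases hj : j = i
      · rw [hj, Function.update_self, Function.update_self]
        simp
      · rw [Function.update_of_ne hj, Function.update_of_ne hj]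
        simp
    rw [h2, h3] at h1
    exact h1

/-- Paper proof: apply `h1` in one variable after the other (for instance with
`MeasureTheory.lmarginal`, or by induction on `n` with `Fin.cons` /
`MeasureTheory.volume_preserving_piFinSuccAbove`), and Tonelli; as a function of one variable, the
others being fixed, `P` is a polynomial of `natDegree ≤ M`.  Then pass from `Fin n → ℝ` to
`EuclideanSpace ℝ (Fin n)` (`EuclideanSpace.volume_preserving_symm_measurableEquiv_toLp` or the
like). -/
theorem nikn
    (h1 : ∀ (p : Polynomial ℝ) (M : ℕ), p.natDegree ≤ M → ∀ x : ℝ, |x| ≤ 1 →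
      ‖p.eval x‖ₑ ≤ ENNReal.ofReal (2 * (M + 1)) * ∫⁻ y in Icc (-2 : ℝ) 2, ‖p.eval y‖ₑ)
    (n M : ℕ) (P : MvPolynomial (Fin n) ℝ) (hP : P.totalDegree ≤ M)
    (x : EuclideanSpace ℝ (Fin n)) (hx : ∀ i, |x i| ≤ 1) :
    ‖MvPolynomial.eval (fun i => x i) P‖ₑ ≤ ENNReal.ofReal ((2 * (M + 1)) ^ n) *
      ∫⁻ y in {y : EuclideanSpace ℝ (Fin n) | ∀ i, |y i| ≤ 2},
        ‖MvPolynomial.eval (fun i => y i) P‖ₑ := by
  set C : ℝ≥0∞ := ENNReal.ofReal (2 * (M + 1)) with hC
  have hCt : C ≠ ∞ := ENNReal.ofReal_ne_top
  let μ : Fin n → Measure ℝ := fun _ => volume.restrict (Icc (-2 : ℝ) 2)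
  let g : (Fin n → ℝ) → ℝ≥0∞ := fun z => ‖MvPolynomial.eval z P‖ₑ
  have hg : Measurable g := (MvPolynomial.continuous_eval P).measurable.enorm
  have hone : ∀ (z : Fin n → ℝ) (i : Fin n), |z i| ≤ 1 →
      g z ≤ C * ∫⁻ t, g (Function.update z i t) ∂(μ i) := by
    intro z i hz
    obtain ⟨q, hq, hqe⟩ := line_poly n M P hP z i
    have h := h1 q M hq (z i) hz
    simp only [hqe, Function.update_eq_self] at h
    exact h
  have key : ∀ s : Finset (Fin n), ∀ z : Fin n → ℝ, (∀ i ∈ s, |z i| ≤ 1) →
      g z ≤ C ^ s.card * (∫⋯∫⁻_s, g ∂μ) z := by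
    intro s
    induction s using Finset.induction_on with
    | empty =>
      intro z _
      simp
    | insert i s hi ih =>
      intro z hz
      refine (ih z (fun j hj => hz j (Finset.mem_insert_of_mem hj))).trans ?_
      rw [Finset.card_insert_of_notMem hi, pow_succ, mul_assoc]
      refine mul_le_mul_right ?_ _
      rw [lmarginal_insert' (μ := μ) g hg hi]
      unfold lmarginal
      rw [← lintegral_const_mul' _ _ hCt]
      refine lintegral_mono fun y => ?_
      refine hone _ i ?_
      have h2 : Function.updateFinset z s y i = z i := by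
        rw [Function.updateFinset_def]
        simp [hi]
      rw [h2]
      exact hz i (Finset.mem_insert_self i s)
  have h3 := key Finset.univ (fun i => x i) (fun i _ => hx i)
  rw [lmarginal_univ, Finset.card_univ, Fintype.card_fin] at h3
  have h4 : Measure.pi μ = (volume : Measure (Fin n → ℝ)).restrict
      (Set.univ.pi fun _ => Icc (-2 : ℝ) 2) := by
    rw [volume_pi, Measure.restrict_pi_pi]
  have h5 : {y : EuclideanSpace ℝ (Fin n) | ∀ i, |y i| ≤ 2} =
      (@WithLp.ofLp 2 (Fin n → ℝ)) ⁻¹' (Set.univ.pi fun _ => Icc (-2 : ℝ) 2) := by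
    ext y
    simp only [Set.mem_preimage, Set.mem_univ_pi, Set.mem_Icc]
    exact forall_congr' fun i => abs_le
  have h6 := (PiLp.volume_preserving_ofLp (Fin n)).setLIntegral_comp_preimage
    (s := Set.univ.pi fun _ => Icc (-2 : ℝ) 2)
    (MeasurableSet.univ_pi fun _ => measurableSet_Icc) hg
  rw [ENNReal.ofReal_pow (by positivity), ← hC, h5]
  refine h3.trans ?_
  rw [h4, ← h6]

end Pool.Agent.H222.KP
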