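import Pool.Agent.H222.KP.Tub
import Pool.Agent.H222.KP.NikA
import Pool.Agent.H222.KP.NikB
import Pool.Agent.H222.KP.Ker
import Pool.Agent.H222.KP.Conv

/-!
From the Kakeya maximal function of width `1 / D` to segments and polynomials of degree `D`.
-/

open MeasureTheory Set Filter Topology ENNReal NNReal Metric

namespace Pool.Agent.H222.KP

open Pool.Agent.W767.Kc Pool.Agent.H742R2.Kk

variable {n : ℕ}

/-- the cube `[-r, r]^n` -/
def cube (n : ℕ) (r : ℝ) : Set (E n) := {x | ∀ i, |x i| ≤ r}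

theorem cube_closed (n : ℕ) (r : ℝ) : IsClosed (cube n r) := by
  have : cube n r = ⋂ i, {x : E n | |x i| ≤ r} := by
    ext x; simp [cube]
  rw [this]
  exact isClosed_iInter fun i => isClosed_le (by fun_prop) continuous_const

theorem cube_meas (n : ℕ) (r : ℝ) : MeasurableSet (cube n r) := (cube_closed n r).measurableSet

/-- the value of a polynomial -/
noncomputable def ev (P : MvPolynomial (Fin n) ℝ) (x : E n) : ℝ :=
  MvPolynomial.eval (fun i => x i) P

theorem ev_cont (P : MvPolynomial (Fin n) ℝ) : Continuous (ev P) := by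
  unfold ev
  exact (MvPolynomial.continuous_eval P).comp (by fun_prop)

/-- the majorant of the kernel -/
noncomputable def maj (n : ℕ) (T : ℝ) (k : ℕ) (v : E n) : ℝ≥0∞ :=
  ENNReal.ofReal (((1 + T * ‖v‖) ^ (2 * k))⁻¹)

theorem maj_meas (T : ℝ) (k : ℕ) : Measurable (maj n T k) := by
  unfold maj; fun_prop

theorem maj_shift {T : ℝ} (hT : 0 ≤ T) (k : ℕ) {u : E n} (hu : T * ‖u‖ ≤ 1) (v : E n) :
    maj n T k v ≤ 2 ^ (2 * k) * maj n T k (v + u) := by
  unfold maj
  have e2 : (2 : ℝ≥0∞) ^ (2 * k) = ENNReal.ofReal (2 ^ (2 * k)) := by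
    rw [ENNReal.ofReal_pow (by norm_num), ENNReal.ofReal_ofNat]
  rw [e2, ← ENNReal.ofReal_mul (by positivity)]
  refine ENNReal.ofReal_le_ofReal ?_
  have h1 : 1 + T * ‖v + u‖ ≤ 2 * (1 + T * ‖v‖) := by
    have := norm_add_le v u
    nlinarith [norm_nonneg v]
  have h0 : 0 < 1 + T * ‖v + u‖ := by positivity
  have h0' : 0 < 1 + T * ‖v‖ := by positivity
  have h2 : (1 + T * ‖v + u‖) ^ (2 * k) ≤ 2 ^ (2 * k) * (1 + T * ‖v‖) ^ (2 * k) := by
    rw [← mul_pow]; gcongr
  rw [← div_eq_mul_inv, inv_eq_one_div, div_le_div_iff₀ (by positivity) (by positivity)]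
  linarith

theorem maj_fin {k : ℕ} (hk : n < 2 * k) : ∫⁻ v, maj n 1 k v < ∞ := by
  have h := finite_integral_one_add_norm (E := E n) (μ := volume) (r := (2 * k : ℕ)) (by
    rw [finrank_euclideanSpace_fin]; exact_mod_cast hk)
  refine lt_of_eq_of_lt (lintegral_congr fun v => ?_) h
  unfold maj
  rw [one_mul, Real.rpow_neg (by positivity), Real.rpow_natCast]

theorem maj_int {T : ℝ} (hT : 0 < T) (k : ℕ) :
    ∫⁻ v, maj n T k v = ENNReal.ofReal ((1 / T) ^ n) * ∫⁻ v, maj n 1 k v := by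
  have h1 : ∀ v : E n, maj n T k v = maj n 1 k (T • v) := fun v => by
    unfold maj
    rw [norm_smul, Real.norm_of_nonneg hT.le, one_mul]
  have h2 : ∫⁻ v, maj n 1 k (T • v) = ∫⁻ v, maj n 1 k v ∂(Measure.map (T • ·) volume) := by
    rw [lintegral_map (maj_meas 1 k) (measurable_const_smul T)]
  simp_rw [h1]
  rw [h2, Measure.map_addHaar_smul volume hT.ne', lintegral_smul_measure,
    finrank_euclideanSpace_fin, smul_eq_mul]
  congr 2
  rw [abs_of_nonneg (by positivity), one_div, inv_pow]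

/-- the kernel and its majorant -/
theorem ker_maj (hn : 1 ≤ n) (N k : ℕ) {T : ℝ} (hT : 0 ≤ T) (hTN : T ≤ N + 1) (v : E n)
    (hv : ‖v‖ ^ 2 ≤ 16 * n) :
    ENNReal.ofReal (ker N k (1 / (16 * n)) v) ≤ ENNReal.ofReal ((64 * n) ^ k) * maj n T k v := by
  unfold maj
  have hn' : (1 : ℝ) ≤ n := by exact_mod_cast hn
  rw [← ENNReal.ofReal_mul (by positivity)]
  refine ENNReal.ofReal_le_ofReal ?_
  have hc : (0 : ℝ) ≤ 1 / (16 * n) := by positivity
  have hcv : 1 / (16 * (n : ℝ)) * ‖v‖ ^ 2 ≤ 1 := by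
    rw [one_div, inv_mul_le_iff₀ (by positivity), mul_one]; exact hv
  have h1 := ker_le_one N k hc v (hcv.trans (by norm_num))
  have h2 := ker_decay N k hc v hcv
  have hpos : 0 < (1 + T * ‖v‖) ^ (2 * k) := by positivity
  rw [← div_eq_mul_inv, le_div_iff₀ hpos]
  have h5 : (0 : ℝ) ≤ T * ‖v‖ := by positivity
  rcases le_total (T * ‖v‖) 1 with h | h
  · have h3 : (1 + T * ‖v‖) ^ (2 * k) ≤ (64 * n) ^ k := by
      rw [pow_mul]
      gcongr
      nlinarith
    calc ker N k (1 / (16 * n)) v * (1 + T * ‖v‖) ^ (2 * k)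
        ≤ 1 * (64 * n) ^ k := by gcongr; exact h1.2
      _ = _ := one_mul _
  · have h3 : (1 + T * ‖v‖) ^ 2 ≤ 64 * n * (1 / (16 * n) * (N + 1) ^ 2 * ‖v‖ ^ 2) := by
      have h4 : T * ‖v‖ ≤ (N + 1) * ‖v‖ := by gcongr
      have e1 : 64 * (n : ℝ) * (1 / (16 * n) * (N + 1) ^ 2 * ‖v‖ ^ 2) =
          (2 * ((N + 1) * ‖v‖)) ^ 2 := by
        field_simp
        ring
      rw [e1]
      have h6 : 1 + T * ‖v‖ ≤ 2 * ((N + 1) * ‖v‖) := by linarith
      gcongr
    have h4 : (1 + T * ‖v‖) ^ (2 * k) ≤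
        (64 * n) ^ k * (1 / (16 * n) * (N + 1) ^ 2 * ‖v‖ ^ 2) ^ k := by
      rw [pow_mul, ← mul_pow]
      gcongr
    calc ker N k (1 / (16 * n)) v * (1 + T * ‖v‖) ^ (2 * k)
        ≤ ker N k (1 / (16 * n)) v *
          ((64 * n) ^ k * (1 / (16 * n) * (N + 1) ^ 2 * ‖v‖ ^ 2) ^ k) := by
          gcongr; exact h1.1
      _ = (64 * n) ^ k * (ker N k (1 / (16 * n)) v *
          (1 / (16 * n) * (N + 1) ^ 2 * ‖v‖ ^ 2) ^ k) := by ring
      _ ≤ (64 * n) ^ k * 1 := by gcongr
      _ = _ := mul_one _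

theorem cube_sub {x y : E n} (hx : x ∈ cube n 2) (hy : y ∈ cube n 2) : ‖x - y‖ ^ 2 ≤ 16 * n := by
  rw [EuclideanSpace.norm_sq_eq]
  calc ∑ i, ‖(x - y) i‖ ^ 2 ≤ ∑ _i : Fin n, (16 : ℝ) := by
        refine Finset.sum_le_sum fun i _ => ?_
        have h1 := abs_le.1 (hx i)
        have h2 := abs_le.1 (hy i)
        rw [Real.norm_eq_abs, sq_abs, PiLp.sub_apply]
        nlinarith
    _ = 16 * n := by simp [mul_comm]

theorem cube_mono {r s : ℝ} (h : r ≤ s) : cube n r ⊆ cube n s := fun _ hx i => (hx i).trans h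

/-- the pointwise bound for polynomials -/
theorem ptw (hn : 1 ≤ n) {D : ℕ} (hD : 1 ≤ D) (k : ℕ) {P : MvPolynomial (Fin n) ℝ}
    (hP : P.totalDegree ≤ D) {x : E n} (hx : x ∈ cube n 1) :
    ‖ev P x‖ₑ ≤ ENNReal.ofReal ((8 * k + 4) ^ n * (64 * n) ^ k * D ^ n) *
      ∫⁻ y, (cube n 2).indicator (fun y => ‖ev P y‖ₑ) y * maj n D k (x - y) := by
  have hx2 : x ∈ cube n 2 := cube_mono (by norm_num) hx
  obtain ⟨Q, hQ, hQe⟩ := conv_poly n D k (1 / (16 * n)) (Measure.dirac x) (by
    rw [ae_dirac_eq]; exact hx2)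
  have hQe' : ∀ y : E n, MvPolynomial.eval (fun i => y i) Q = ker D k (1 / (16 * n)) (y - x) :=
    fun y => by
      rw [hQe y, integral_dirac]; rfl
  have hdeg : (P * Q).totalDegree ≤ D + 4 * k * D := by
    refine (MvPolynomial.totalDegree_mul _ _).trans ?_
    omega
  have h1 := nikn nik1 n (D + 4 * k * D) (P * Q) hdeg x hx
  have h2 : MvPolynomial.eval (fun i => x i) (P * Q) = ev P x := by
    rw [map_mul, hQe' x, sub_self, ker_zero, mul_one]; rfl
  rw [h2] at h1
  refine h1.trans ?_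
  have hk0 : (0 : ℝ) ≤ k := Nat.cast_nonneg k
  have hD1 : (1 : ℝ) ≤ D := by exact_mod_cast hD
  have h3 : ∫⁻ y in {y : E n | ∀ i, |y i| ≤ 2}, ‖MvPolynomial.eval (fun i => y i) (P * Q)‖ₑ ≤
      ENNReal.ofReal ((64 * n) ^ k) *
        ∫⁻ y, (cube n 2).indicator (fun y => ‖ev P y‖ₑ) y * maj n D k (x - y) := by
    change ∫⁻ y in cube n 2, ‖MvPolynomial.eval (fun i => y i) (P * Q)‖ₑ ≤ _
    rw [← lintegral_const_mul' _ _ ENNReal.ofReal_ne_top, ← lintegral_indicator (cube_meas n 2)]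
    refine lintegral_mono fun y => ?_
    by_cases hy : y ∈ cube n 2
    · rw [indicator_of_mem hy, indicator_of_mem hy, map_mul, hQe' y, enorm_mul]
      have h4 := ker_maj hn D k (T := D) (by positivity) (by linarith) (y - x) (cube_sub hy hx2)
      have h5 : maj n D k (y - x) = maj n D k (x - y) := by
        unfold maj; rw [norm_sub_rev]
      have h6 : ‖ker D k (1 / (16 * n)) (y - x)‖ₑ = ENNReal.ofReal (ker D k (1 / (16 * n)) (y - x)) := by
        rw [← ofReal_norm, Real.norm_of_nonneg]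
        unfold ker
        rw [pow_mul]
        positivity
      rw [h6, ← h5]
      calc ‖MvPolynomial.eval (fun i => y i) P‖ₑ *
            ENNReal.ofReal (ker D k (1 / (16 * n)) (y - x))
          ≤ ‖MvPolynomial.eval (fun i => y i) P‖ₑ *
            (ENNReal.ofReal ((64 * n) ^ k) * maj n D k (y - x)) := by gcongr
        _ = ENNReal.ofReal ((64 * n) ^ k) * (‖ev P y‖ₑ * maj n D k (y - x)) := by
            unfold ev; ring
    · rw [indicator_of_notMem hy]
      exact zero_le
  calc ENNReal.ofReal ((2 * (((D + 4 * k * D : ℕ) : ℝ) + 1)) ^ n) *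
        ∫⁻ y in {y : E n | ∀ i, |y i| ≤ 2}, ‖MvPolynomial.eval (fun i => y i) (P * Q)‖ₑ
      ≤ ENNReal.ofReal (((8 * k + 4) * D) ^ n) * (ENNReal.ofReal ((64 * n) ^ k) *
        ∫⁻ y, (cube n 2).indicator (fun y => ‖ev P y‖ₑ) y * maj n D k (x - y)) := by
        refine mul_le_mul' (ENNReal.ofReal_le_ofReal ?_) h3
        refine pow_le_pow_left₀ (by positivity) ?_ n
        push_cast
        nlinarith
    _ = _ := by
        rw [← mul_assoc, ← ENNReal.ofReal_mul (by positivity)]
        congr 2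
        rw [mul_pow]
        ring

/-- the average of the convolution with the majorant -/
theorem maj_avg {T : ℝ} (hT : 0 < T) (k : ℕ) {g : E n → ℝ≥0∞} (hg : Measurable g) (x : E n) :
    ∫⁻ y, g y * maj n T k (x - y) ≤ 2 ^ (2 * k) * ∫⁻ w, maj n T k w * Phi (1 / T) g (x - w) := by
  set δ : ℝ := 1 / T with hδ
  have hδ0 : 0 < δ := by positivity
  set L : ℝ≥0∞ := ∫⁻ y, g y * maj n T k (x - y) with hL
  have h1 : ∀ u ∈ closedBall (0 : E n) δ, L ≤
      2 ^ (2 * k) * ∫⁻ w, maj n T k w * g (x - w + u) := by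
    intro u hu
    have hu1 : T * ‖u‖ ≤ 1 := by
      have h2 := mem_closedBall_zero_iff.1 hu
      rw [hδ, le_div_iff₀ hT] at h2
      linarith
    have h2 : L ≤ 2 ^ (2 * k) * ∫⁻ y, g y * maj n T k (x - y + u) := by
      rw [← lintegral_const_mul' _ _ (by finiteness)]
      refine lintegral_mono fun y => ?_
      calc g y * maj n T k (x - y) ≤ g y * (2 ^ (2 * k) * maj n T k (x - y + u)) := by
            gcongr; exact maj_shift hT.le k hu1 _
        _ = _ := by ring
    refine h2.trans (le_of_eq ?_)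
    congr 1
    rw [← lintegral_sub_left_eq_self (fun y => g y * maj n T k (x - y + u)) (x + u)]
    refine lintegral_congr fun w => ?_
    have e1 : x - (x + u - w) + u = w := by abel
    have e2 : x + u - w = x - w + u := by abel
    rw [e1, e2, mul_comm]
  have hv0 := vB_ne_zero n hδ0
  have hvt := vB_ne_top n δ
  have h3 : vB n δ * L ≤ 2 ^ (2 * k) * ∫⁻ w, maj n T k w * Av δ g (x - w) := by
    calc vB n δ * L = ∫⁻ _u in closedBall (0 : E n) δ, L := by
          rw [setLIntegral_const, mul_comm]; rfl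
      _ ≤ ∫⁻ u in closedBall (0 : E n) δ, 2 ^ (2 * k) * ∫⁻ w, maj n T k w * g (x - w + u) :=
          setLIntegral_mono' isClosed_closedBall.measurableSet h1
      _ = 2 ^ (2 * k) * ∫⁻ u in closedBall (0 : E n) δ, ∫⁻ w, maj n T k w * g (x - w + u) := by
          rw [lintegral_const_mul' _ _ (by finiteness)]
      _ = 2 ^ (2 * k) * ∫⁻ w, maj n T k w * Av δ g (x - w) := by
          congr 1
          rw [lintegral_lintegral_swap (f := fun u w => maj n T k w * g (x - w + u))]
          · refine lintegral_congr fun w => ?_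
            rw [lintegral_const_mul _ (by fun_prop)]
            congr 1
            unfold Av
            rw [← lintegral_indicator isClosed_closedBall.measurableSet,
              ← lintegral_indicator isClosed_closedBall.measurableSet,
              ← lintegral_add_left_eq_self (fun y =>
                (closedBall (x - w) δ).indicator (fun y => g y) y) (x - w)]
            refine lintegral_congr fun u => ?_
            by_cases hu : u ∈ closedBall (0 : E n) δ
            · have hu' : x - w + u ∈ closedBall (x - w) δ := by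
                rw [mem_closedBall, dist_eq_norm, add_sub_cancel_left]
                exact mem_closedBall_zero_iff.1 hu
              rw [indicator_of_mem hu, indicator_of_mem hu']
            · have hu' : x - w + u ∉ closedBall (x - w) δ := by
                rw [mem_closedBall, dist_eq_norm, add_sub_cancel_left]
                exact fun h => hu (mem_closedBall_zero_iff.2 h)
              rw [indicator_of_notMem hu, indicator_of_notMem hu']
          · have h5 := maj_meas (n := n) T k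
            exact Measurable.aemeasurable (by fun_prop)
  calc L = (vB n δ)⁻¹ * (vB n δ * L) := by
        rw [← mul_assoc, ENNReal.inv_mul_cancel hv0 hvt, one_mul]
    _ ≤ (vB n δ)⁻¹ * (2 ^ (2 * k) * ∫⁻ w, maj n T k w * Av δ g (x - w)) := by gcongr
    _ = 2 ^ (2 * k) * ((vB n δ)⁻¹ * ∫⁻ w, maj n T k w * Av δ g (x - w)) := by ring
    _ = _ := by
        rw [← lintegral_const_mul' _ _ (ENNReal.inv_ne_top.2 hv0)]
        congr 1
        refine lintegral_congr fun w => ?_
        unfold Phi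
        ring

/-- the segment maximal function: unit segments with the midpoint in the cube `[-1/2, 1/2]^n` -/
noncomputable def smax (P : MvPolynomial (Fin n) ℝ) (e : E n) : ℝ≥0∞ :=
  ⨆ a ∈ cube n (1 / 2), ∫⁻ s in Icc (-(1 / 2) : ℝ) (1 / 2), ‖ev P (a + s • e)‖ₑ

theorem coord_le (x : E n) (i : Fin n) : |x i| ≤ ‖x‖ := by
  have := PiLp.norm_apply_le x i
  rwa [Real.norm_eq_abs] at this

theorem seg_cube {a e : E n} (ha : a ∈ cube n (1 / 2)) (he : ‖e‖ = 1) {s : ℝ}
    (hs : s ∈ Icc (-(1 / 2) : ℝ) (1 / 2)) : a + s • e ∈ cube n 1 := fun i => by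
  have h1 := ha i
  have h2 : |s| ≤ 1 / 2 := abs_le.2 hs
  have h3 := coord_le e i
  rw [he] at h3
  have h4 : (a + s • e) i = a i + s * e i := by simp
  rw [h4]
  calc |a i + s * e i| ≤ |a i| + |s * e i| := abs_add_le _ _
    _ = |a i| + |s| * |e i| := by rw [abs_mul]
    _ ≤ 1 / 2 + 1 / 2 * 1 := by gcongr
    _ = 1 := by norm_num

/-- **From tubes to segments, for polynomials.** -/
theorem smax_le (hn : 1 ≤ n) : ∃ C : ℝ≥0, ∀ (D : ℕ), 1 ≤ D → ∀ P : MvPolynomial (Fin n) ℝ,
    P.totalDegree ≤ D → ∀ e : E n, ‖e‖ = 1 →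
      smax P e ≤ C * kmax (1 / D) ((cube n 2).indicator fun y => ‖ev P y‖ₑ) e := by
  set k : ℕ := n with hk
  set I : ℝ≥0∞ := ∫⁻ v, maj n 1 k v with hI
  have hIt : I < ∞ := maj_fin (by omega)
  set K : ℝ≥0∞ := ENNReal.ofReal ((8 * k + 4) ^ n * (64 * n) ^ k) * 2 ^ (2 * k) *
    I * (6 * 2 ^ (n + 1)) with hK
  have hKt : K ≠ ∞ := by
    rw [hK]
    have := hIt.ne
    finiteness
  refine ⟨K.toNNReal, fun D hD P hP e he => ?_⟩
  rw [ENNReal.coe_toNNReal hKt]
  have hD0 : (0 : ℝ) < D := by exact_mod_cast hD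
  have hD1 : (1 : ℝ) ≤ D := by exact_mod_cast hD
  set g : E n → ℝ≥0∞ := (cube n 2).indicator fun y => ‖ev P y‖ₑ with hg
  have hPm : Measurable (ev P) := (ev_cont P).measurable
  have hgm : Measurable g := (by fun_prop : Measurable fun y => ‖ev P y‖ₑ).indicator (cube_meas n 2)
  have hδ1 : 1 / (D : ℝ) ≤ 1 := by
    rw [div_le_one hD0]; exact hD1
  refine iSup₂_le fun a ha => ?_
  have hmj := maj_meas (n := n) D k
  have hph := measurable_Phi (1 / (D : ℝ)) hgm
  calc ∫⁻ s in Icc (-(1 / 2) : ℝ) (1 / 2), ‖ev P (a + s • e)‖ₑ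
      ≤ ∫⁻ s in Icc (-(1 / 2) : ℝ) (1 / 2), ENNReal.ofReal ((8 * k + 4) ^ n * (64 * n) ^ k * D ^ n) *
          (2 ^ (2 * k) * ∫⁻ w, maj n D k w * Phi (1 / D) g (a + s • e - w)) := by
        refine setLIntegral_mono' measurableSet_Icc fun s hs => ?_
        refine (ptw hn hD k hP (seg_cube ha he hs)).trans ?_
        gcongr
        exact maj_avg hD0 k hgm _
    _ = ENNReal.ofReal ((8 * k + 4) ^ n * (64 * n) ^ k * D ^ n) * (2 ^ (2 * k) *
          ∫⁻ s in Icc (-(1 / 2) : ℝ) (1 / 2), ∫⁻ w, maj n D k w * Phi (1 / D) g (a + s • e - w)) := by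
        rw [lintegral_const_mul' _ _ ENNReal.ofReal_ne_top, lintegral_const_mul' _ _ (by finiteness)]
    _ = ENNReal.ofReal ((8 * k + 4) ^ n * (64 * n) ^ k * D ^ n) * (2 ^ (2 * k) *
          ∫⁻ w, maj n D k w * ∫⁻ s in Icc (-(1 / 2) : ℝ) (1 / 2), Phi (1 / D) g (a - w + s • e)) := by
        congr 2
        rw [lintegral_lintegral_swap
          (f := fun s w => maj n D k w * Phi (1 / D) g (a + s • e - w))
          (Measurable.aemeasurable (by fun_prop))]
        refine lintegral_congr fun w => ?_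
        rw [lintegral_const_mul _ (by fun_prop)]
        congr 1
        refine lintegral_congr fun s => ?_
        congr 1
        abel
    _ ≤ ENNReal.ofReal ((8 * k + 4) ^ n * (64 * n) ^ k * D ^ n) * (2 ^ (2 * k) *
          ∫⁻ w, maj n D k w * (6 * 2 ^ (n + 1) * kmax (1 / D) g e)) := by
        gcongr with w
        exact seg_le_kmax (by positivity) hδ1 hgm _ he hn
    _ = ENNReal.ofReal ((8 * k + 4) ^ n * (64 * n) ^ k * D ^ n) * (2 ^ (2 * k) *
          ((ENNReal.ofReal ((1 / D) ^ n) * I) * (6 * 2 ^ (n + 1) * kmax (1 / D) g e))) := by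
        rw [lintegral_mul_const _ hmj, maj_int hD0]
    _ = K * kmax (1 / D) g e := by
        have h1 : ENNReal.ofReal ((8 * k + 4) ^ n * (64 * n) ^ k * D ^ n) * ENNReal.ofReal ((1 / D) ^ n) =
            ENNReal.ofReal ((8 * k + 4) ^ n * (64 * n) ^ k) := by
          have e5 : (D : ℝ) ^ n * (1 / D) ^ n = 1 := by
            rw [← mul_pow, mul_one_div_cancel hD0.ne', one_pow]
          rw [← ENNReal.ofReal_mul (by positivity)]
          congr 1
          rw [mul_assoc _ ((D : ℝ) ^ n) ((1 / (D : ℝ)) ^ n), e5, mul_one]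
        rw [hK, ← h1]
        ring

end Pool.Agent.H222.KP
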