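import Pool.Agent.H222.KP.Bwd
import Pool.Agent.H222.KP.Count

/-!
The Kakeya maximal function of width `δ` and the segment maximal function of polynomials.
-/

open MeasureTheory Set Filter Topology ENNReal NNReal Metric

namespace Pool.Agent.H222.KP

open Pool.Agent.W767.Kc Pool.Agent.H742R2.Kk

variable {n : ℕ}

/-- the surface measure of the unit sphere -/
noncomputable abbrev surf (n : ℕ) : Measure (sphere (0 : E n) 1) := (volume : Measure (E n)).toSphere

/-- the vector with integer coordinates -/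
noncomputable def tr (m : Fin n → ℤ) : E n := WithLp.toLp 2 (fun i => (m i : ℝ))

theorem tube_pre (δ : ℝ) (e b t : E n) : (fun y => t + y) ⁻¹' tube δ e b = tube δ e (b - t) := by
  ext y
  simp only [tube, mem_preimage, mem_ofPred_eq]
  have e1 : t + y - b = y - (b - t) := by abel
  rw [e1]

theorem tube_tr (δ : ℝ) (e b t : E n) (f : E n → ℝ≥0∞) :
    (volume (tube δ e b))⁻¹ * ∫⁻ y in tube δ e b, f y =
      (volume (tube δ e (b - t)))⁻¹ * ∫⁻ y in tube δ e (b - t), f (t + y) := by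
  have hm : ∀ b : E n, MeasurableSet (tube δ e b) := fun b => (isClosed_tube δ e b).measurableSet
  have h1 : volume (tube δ e (b - t)) = volume (tube δ e b) := by
    rw [← tube_pre δ e b t, measure_preimage_add]
  rw [h1]
  congr 1
  rw [← lintegral_indicator (hm _), ← lintegral_indicator (hm _),
    ← lintegral_add_left_eq_self _ t]
  refine lintegral_congr fun y => ?_
  by_cases hy : y ∈ tube δ e (b - t)
  · have hy' : t + y ∈ tube δ e b := by rw [← tube_pre δ e b t] at hy; exact hy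
    rw [indicator_of_mem hy, indicator_of_mem hy']
  · have hy' : t + y ∉ tube δ e b := by rw [← tube_pre δ e b t] at hy; exact hy
    rw [indicator_of_notMem hy, indicator_of_notMem hy']

theorem smax_meas' (P : MvPolynomial (Fin n) ℝ) : Measurable (smax P) := smax_meas n P

theorem cube_fin : volume (cube n 2) ≠ ∞ := by
  refine (measure_mono (t := closedBall (0 : E n) (2 * n)) fun y hy => ?_).trans_lt
    measure_closedBall_lt_top |>.ne
  exact CP.norm_le_of y hy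

theorem le_one_add_rpow {p : ℝ} (hp : 1 ≤ p) (x : ℝ≥0∞) : x ≤ 1 + x ^ p := by
  rcases le_total x 1 with h | h
  · exact h.trans (le_add_right le_rfl)
  · have h1 : x ^ (1 : ℝ) ≤ x ^ p := ENNReal.rpow_le_rpow_of_exponent_le h hp
    rw [ENNReal.rpow_one] at h1
    exact h1.trans (le_add_left le_rfl)

/-- **From segments and nonnegative polynomials to tubes and functions.** -/
theorem bwd (hn : 1 ≤ n) {p : ℝ} (hp : 1 ≤ p) : ∃ C : ℝ≥0, ∀ δ : ℝ, 0 < δ → δ ≤ 1 →
    ∀ D : ℕ, 4 * n / δ ≤ D → ∀ B : ℝ≥0∞,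
    (∀ P : MvPolynomial (Fin n) ℝ, P.totalDegree ≤ D → (∀ x, 0 ≤ ev P x) →
      ∫⁻ e, smax P (e : E n) ^ p ∂(surf n) ≤ B * ∫⁻ y in cube n 2, ‖ev P y‖ₑ ^ p) →
    ∀ f : E n → ℝ≥0∞, Measurable f → ∫⁻ y, f y ^ p ≠ ∞ →
      ∫⁻ e, kmax δ f (e : E n) ^ p ∂(surf n) ≤ C * B * ∫⁻ y, f y ^ p := by
  obtain ⟨C₁, C₂, hC⟩ := poly_of_fun hn
  have hp0 : 0 < p := by linarith
  refine ⟨(C₁ * C₂) ^ p * 5 ^ n, fun δ hδ hδ1 D hD B hB f hf hfp => ?_⟩
  have hfm : ∀ m : Fin n → ℤ, Measurable fun y => f (tr m + y) := fun m => hf.comp (by fun_prop)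
  have hfin : ∀ m : Fin n → ℤ, ∫⁻ y in cube n 2, f (tr m + y) ≠ ∞ := by
    intro m
    have h1 : ∫⁻ y in cube n 2, f (tr m + y) ≤ ∫⁻ y in cube n 2, (1 + f (tr m + y) ^ p) :=
      lintegral_mono fun y => le_one_add_rpow hp _
    have h2 : ∫⁻ y in cube n 2, f (tr m + y) ^ p ≤ ∫⁻ y, f y ^ p := by
      refine (setLIntegral_le_lintegral _ _).trans (le_of_eq ?_)
      exact lintegral_add_left_eq_self (fun y => f y ^ p) (tr m)
    refine (h1.trans_lt ?_).ne
    rw [lintegral_add_left measurable_const, lintegral_one, Measure.restrict_apply_univ]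
    exact ENNReal.add_lt_top.2 ⟨cube_fin.lt_top, h2.trans_lt hfp.lt_top⟩
  choose P hP1 hP2 hP3 hP4 using fun m => hC δ hδ hδ1 (fun y => f (tr m + y)) (hfm m) (hfin m)
  set K : ℝ≥0∞ := C₁ * ENNReal.ofReal ((1 / δ) ^ n) with hK
  have hdeg : ∀ m, (P m).totalDegree ≤ D := fun m => by
    have := (hP1 m).trans hD
    exact_mod_cast this
  have h1 : ∀ e : E n, ‖e‖ = 1 → kmax δ f e ^ p ≤ ∑' m, (K * smax (P m) e) ^ p := by
    intro e he
    have h2 : kmax δ f e ≤ (∑' m, (K * smax (P m) e) ^ p) ^ (1 / p) := by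
      refine iSup_le fun b => ?_
      obtain ⟨m, hm⟩ := nearest n b
      rw [tube_tr δ e b (tr m) f]
      refine (hP3 m e he (b - tr m) hm).trans ?_
      have h3 : (K * smax (P m) e) ^ p ≤ ∑' m, (K * smax (P m) e) ^ p := ENNReal.le_tsum m
      calc K * smax (P m) e = ((K * smax (P m) e) ^ p) ^ (1 / p) := by
            rw [← ENNReal.rpow_mul, mul_one_div_cancel hp0.ne', ENNReal.rpow_one]
        _ ≤ _ := ENNReal.rpow_le_rpow h3 (by positivity)
    calc kmax δ f e ^ p ≤ ((∑' m, (K * smax (P m) e) ^ p) ^ (1 / p)) ^ p :=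
          ENNReal.rpow_le_rpow h2 hp0.le
      _ = _ := by rw [← ENNReal.rpow_mul, one_div_mul_cancel hp0.ne', ENNReal.rpow_one]
  have hKt : K ≠ ∞ := by rw [hK]; finiteness
  have h5 : ∀ m, ∫⁻ e : sphere (0 : E n) 1, (K * smax (P m) (e : E n)) ^ p ∂(surf n) ≤
      ((C₁ * C₂ : ℝ≥0) : ℝ≥0∞) ^ p * B * ∫⁻ y in cube n 2, f (tr m + y) ^ p := by
    intro m
    have h6 : ∫⁻ e : sphere (0 : E n) 1, (K * smax (P m) (e : E n)) ^ p ∂(surf n) =
        K ^ p * ∫⁻ e : sphere (0 : E n) 1, smax (P m) (e : E n) ^ p ∂(surf n) := by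
      rw [← lintegral_const_mul' _ _ (ENNReal.rpow_ne_top_of_nonneg hp0.le hKt)]
      refine lintegral_congr fun e => ?_
      rw [ENNReal.mul_rpow_of_nonneg _ _ hp0.le]
    rw [h6]
    calc K ^ p * ∫⁻ e : sphere (0 : E n) 1, smax (P m) (e : E n) ^ p ∂(surf n)
        ≤ K ^ p * (B * ((C₂ * ENNReal.ofReal (δ ^ n)) ^ p *
            ∫⁻ y in cube n 2, f (tr m + y) ^ p)) := by
          gcongr
          refine (hB (P m) (hdeg m) (hP2 m)).trans ?_
          gcongr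
          exact hP4 m p hp
      _ = (K * (C₂ * ENNReal.ofReal (δ ^ n))) ^ p * B * ∫⁻ y in cube n 2, f (tr m + y) ^ p := by
          rw [ENNReal.mul_rpow_of_nonneg K _ hp0.le]
          ring
      _ = _ := by
          congr 3
          rw [hK, ENNReal.coe_mul]
          have h7 : ENNReal.ofReal ((1 / δ) ^ n) * ENNReal.ofReal (δ ^ n) = 1 := by
            rw [← ENNReal.ofReal_mul (by positivity), ← mul_pow, one_div_mul_cancel hδ.ne', one_pow,
              ENNReal.ofReal_one]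
          calc (C₁ : ℝ≥0∞) * ENNReal.ofReal ((1 / δ) ^ n) * (C₂ * ENNReal.ofReal (δ ^ n))
              = C₁ * C₂ * (ENNReal.ofReal ((1 / δ) ^ n) * ENNReal.ofReal (δ ^ n)) := by ring
            _ = _ := by rw [h7, mul_one]
  have hms : ∀ m, Measurable fun e : sphere (0 : E n) 1 => (K * smax (P m) (e : E n)) ^ p := by
    intro m
    have h8 : Measurable fun e : sphere (0 : E n) 1 => smax (P m) (e : E n) :=
      (smax_meas' (P m)).comp measurable_subtype_coe
    exact (h8.const_mul K).pow_const p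
  calc ∫⁻ e : sphere (0 : E n) 1, kmax δ f (e : E n) ^ p ∂(surf n)
      ≤ ∫⁻ e : sphere (0 : E n) 1, ∑' m, (K * smax (P m) (e : E n)) ^ p ∂(surf n) :=
        lintegral_mono fun e => h1 e (mem_sphere_zero_iff_norm.1 e.2)
    _ = ∑' m, ∫⁻ e : sphere (0 : E n) 1, (K * smax (P m) (e : E n)) ^ p ∂(surf n) :=
        lintegral_tsum fun m => (hms m).aemeasurable
    _ ≤ ∑' m, ((C₁ * C₂ : ℝ≥0) : ℝ≥0∞) ^ p * B * ∫⁻ y in cube n 2, f (tr m + y) ^ p :=
        ENNReal.tsum_le_tsum h5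
    _ = ((C₁ * C₂ : ℝ≥0) : ℝ≥0∞) ^ p * B * ∑' m, ∫⁻ y in cube n 2, f (tr m + y) ^ p :=
        ENNReal.tsum_mul_left
    _ ≤ ((C₁ * C₂ : ℝ≥0) : ℝ≥0∞) ^ p * B * (5 ^ n * ∫⁻ y, f y ^ p) := by
        gcongr
        exact count n (hf.pow_const p)
    _ = _ := by
        have e6 : (((C₁ * C₂) ^ p * 5 ^ n : ℝ≥0) : ℝ≥0∞) =
            ((C₁ * C₂ : ℝ≥0) : ℝ≥0∞) ^ p * 5 ^ n := by
          rw [ENNReal.coe_mul, ENNReal.coe_rpow_of_nonneg _ hp0.le, ENNReal.coe_pow,
            ENNReal.coe_ofNat]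
        rw [e6]
        ring

/-- **From tubes and functions to segments and polynomials.** -/
theorem fwd (hn : 1 ≤ n) {p : ℝ} (hp : 1 ≤ p) : ∃ C : ℝ≥0, ∀ D : ℕ, 1 ≤ D → ∀ A : ℝ≥0∞,
    (∀ f : E n → ℝ≥0∞, Measurable f → ∫⁻ y, f y ^ p ≠ ∞ →
      ∫⁻ e, kmax (1 / D) f (e : E n) ^ p ∂(surf n) ≤ A * ∫⁻ y, f y ^ p) →
    ∀ P : MvPolynomial (Fin n) ℝ, P.totalDegree ≤ D →
      ∫⁻ e, smax P (e : E n) ^ p ∂(surf n) ≤ C * A * ∫⁻ y in cube n 2, ‖ev P y‖ₑ ^ p := by
  obtain ⟨C, hC⟩ := smax_le hn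
  have hp0 : 0 < p := by linarith
  refine ⟨C ^ p, fun D hD A hA P hP => ?_⟩
  set g : E n → ℝ≥0∞ := (cube n 2).indicator fun y => ‖ev P y‖ₑ with hg
  have hPm : Measurable (ev P) := (ev_cont P).measurable
  have hgm : Measurable g := (by fun_prop : Measurable fun y => ‖ev P y‖ₑ).indicator (cube_meas n 2)
  have e5 : ∫⁻ y, g y ^ p = ∫⁻ y in cube n 2, ‖ev P y‖ₑ ^ p := by
    rw [← lintegral_indicator (cube_meas n 2)]
    refine lintegral_congr fun y => ?_
    by_cases h : y ∈ cube n 2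
    · rw [indicator_of_mem h, hg, indicator_of_mem h]
    · rw [indicator_of_notMem h, hg, indicator_of_notMem h, ENNReal.zero_rpow_of_pos hp0]
  have hgp : ∫⁻ y, g y ^ p ≠ ∞ := by
    rw [e5]
    have hcpt : IsCompact (cube n 2) := by
      refine Metric.isCompact_of_isClosed_isBounded (cube_closed n 2) ?_
      exact isBounded_closedBall.subset fun y hy => CP.norm_le_of y hy
    obtain ⟨M, hM⟩ := hcpt.exists_bound_of_continuousOn (ev_cont P).continuousOn
    have h1 : ∫⁻ y in cube n 2, ‖ev P y‖ₑ ^ p ≤ ∫⁻ _y in cube n 2, ENNReal.ofReal M ^ p := by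
      refine setLIntegral_mono' (cube_meas n 2) fun y hy => ?_
      refine ENNReal.rpow_le_rpow ?_ hp0.le
      rw [← ofReal_norm]
      exact ENNReal.ofReal_le_ofReal (hM y hy)
    refine (h1.trans_lt ?_).ne
    rw [setLIntegral_const]
    exact ENNReal.mul_lt_top (ENNReal.rpow_lt_top_of_nonneg hp0.le ENNReal.ofReal_ne_top)
      cube_fin.lt_top
  have h2 := hA g hgm hgp
  have hCt : ((C : ℝ≥0∞)) ^ p ≠ ∞ := ENNReal.rpow_ne_top_of_nonneg hp0.le ENNReal.coe_ne_top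
  calc ∫⁻ e : sphere (0 : E n) 1, smax P (e : E n) ^ p ∂(surf n)
      ≤ ∫⁻ e : sphere (0 : E n) 1, (C : ℝ≥0∞) ^ p * kmax (1 / D) g (e : E n) ^ p ∂(surf n) := by
        refine lintegral_mono fun e => ?_
        rw [← ENNReal.mul_rpow_of_nonneg _ _ hp0.le]
        exact ENNReal.rpow_le_rpow (hC D hD P hP e (mem_sphere_zero_iff_norm.1 e.2)) hp0.le
    _ = (C : ℝ≥0∞) ^ p * ∫⁻ e : sphere (0 : E n) 1, kmax (1 / D) g (e : E n) ^ p ∂(surf n) :=
        lintegral_const_mul' _ _ hCt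
    _ ≤ (C : ℝ≥0∞) ^ p * (A * ∫⁻ y, g y ^ p) := by gcongr
    _ = _ := by
        rw [e5, ENNReal.coe_rpow_of_nonneg _ hp0.le]
        ring

end Pool.Agent.H222.KP
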