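import Pool.Agent.H222.KP.Main

/-!
The polynomial bump of degree `D`.
-/

open MeasureTheory Set Filter Topology ENNReal NNReal Metric

namespace Pool.Agent.H222.KP

open Pool.Agent.W767.Kc Pool.Agent.H742R2.Kk

variable {n : ℕ}

theorem surf_pos (hn : 1 ≤ n) : surf n univ ≠ 0 := by
  have : Nontrivial (E n) := by
    have : Nonempty (Fin n) := ⟨⟨0, by omega⟩⟩
    infer_instance
  rw [Measure.toSphere_apply_univ, finrank_euclideanSpace_fin]
  have h1 : volume (ball (0 : E n) 1) ≠ 0 := (measure_ball_pos volume _ one_pos).ne'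
  have h2 : (n : ℝ≥0∞) ≠ 0 := by
    have : n ≠ 0 := by omega
    exact_mod_cast this
  exact mul_ne_zero h2 h1

theorem bump (hn : 1 ≤ n) {p : ℝ} (hp : 1 ≤ p) : ∃ c : ℝ≥0, 0 < c ∧ ∀ D : ℕ, 1 ≤ D →
    ∃ P : MvPolynomial (Fin n) ℝ, P.totalDegree ≤ D ∧ (∀ x, 0 ≤ ev P x) ∧ ev P 0 = 1 ∧
      c * ENNReal.ofReal ((D : ℝ) ^ ((n : ℝ) - p)) * ∫⁻ y in cube n 2, ‖ev P y‖ₑ ^ p ≤
        ∫⁻ e, smax P (e : E n) ^ p ∂(surf n) := by
  have hn' : (1 : ℝ) ≤ n := by exact_mod_cast hn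
  have hp0 : 0 < p := by linarith
  set I : ℝ≥0∞ := ∫⁻ v, maj n 1 n v with hI
  have hIt : I < ∞ := maj_fin (by omega)
  set K : ℝ≥0∞ := ENNReal.ofReal ((256 * n ^ 2) ^ n) * I with hK
  have hKt : K ≠ ∞ := by
    rw [hK]
    have := hIt.ne
    finiteness
  set L : ℝ≥0∞ := ENNReal.ofReal ((1 / 2) ^ (2 * n) / 2) ^ p * surf n univ with hL
  have hL0 : L ≠ 0 := by
    refine mul_ne_zero ?_ (surf_pos hn)
    have h1 : (0 : ℝ) < (1 / 2) ^ (2 * n) / 2 := by positivity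
    exact (ENNReal.rpow_pos (ENNReal.ofReal_pos.2 h1) ENNReal.ofReal_ne_top).ne'
  have hLt : L ≠ ∞ := by
    refine ENNReal.mul_ne_top (ENNReal.rpow_ne_top_of_nonneg hp0.le ENNReal.ofReal_ne_top) ?_
    exact measure_ne_top _ _
  have hc0 : L / (K + 1) ≠ 0 := (ENNReal.div_pos hL0 (by finiteness)).ne'
  have hct : L / (K + 1) ≠ ∞ := ENNReal.div_ne_top hLt (by simp)
  refine ⟨(L / (K + 1)).toNNReal, ENNReal.toNNReal_pos hc0 hct, fun D hD => ?_⟩
  rw [ENNReal.coe_toNNReal hct]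
  have hD1 : (1 : ℝ) ≤ D := by exact_mod_cast hD
  have hD0 : (0 : ℝ) < D := by linarith
  set N : ℕ := D / (4 * n) with hN
  have hN1 : 4 * n * N ≤ D := Nat.mul_div_le D (4 * n)
  have hN2 : (D : ℝ) / (4 * n) ≤ N + 1 := by
    rw [div_le_iff₀ (by positivity)]
    have h1 : D < (4 * n) * (N + 1) := by
      have := Nat.lt_mul_div_succ D (show 0 < 4 * n by omega)
      exact this
    have h2 : (D : ℝ) < ((4 * n * (N + 1) : ℕ) : ℝ) := by exact_mod_cast h1
    push_cast at h2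
    nlinarith
  have hN3 : ((N : ℝ) + 1) ≤ 2 * D := by
    have h1 : N ≤ D := Nat.div_le_self _ _
    have h2 : (N : ℝ) ≤ D := by exact_mod_cast h1
    linarith
  obtain ⟨P, hP, hPe⟩ := conv_poly n N n (1 / (16 * n)) (Measure.dirac (0 : E n)) (by
    rw [ae_dirac_eq]
    show ∀ i, |(0 : E n) i| ≤ 2
    intro i
    simp)
  have hPe' : ∀ x : E n, ev P x = ker N n (1 / (16 * n)) x := fun x => by
    have h1 := hPe x
    rw [integral_dirac, sub_zero] at h1
    exact h1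
  refine ⟨P, hP.trans hN1, fun x => ?_, ?_, ?_⟩
  · rw [hPe' x]; exact ker_nonneg _ _ _ _
  · rw [hPe' 0]; exact ker_zero _ _ _
  -- the upper bound
  have h1 : ∫⁻ y in cube n 2, ‖ev P y‖ₑ ^ p ≤ K * ENNReal.ofReal ((1 / D) ^ n) := by
    have h2 : ∀ y ∈ cube n 2, ‖ev P y‖ₑ ^ p ≤
        ENNReal.ofReal ((64 * n) ^ n) * maj n (D / (4 * n)) n y := by
      intro y hy
      have hy2 : ‖y‖ ^ 2 ≤ 16 * n := by
        have := cube_sub hy (show (0 : E n) ∈ cube n 2 from fun i => by simp)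
        rwa [sub_zero] at this
      have h3 : ‖ev P y‖ₑ = ENNReal.ofReal (ker N n (1 / (16 * n)) y) := by
        rw [← ofReal_norm, hPe' y, Real.norm_of_nonneg (ker_nonneg _ _ _ _)]
      have h4 : ker N n (1 / (16 * n)) y ≤ 1 := by
        refine (ker_le_one N n (by positivity) y ?_).2
        rw [one_div, inv_mul_le_iff₀ (by positivity)]
        linarith
      have h5 : ‖ev P y‖ₑ ≤ 1 := by
        rw [h3, ← ENNReal.ofReal_one]
        exact ENNReal.ofReal_le_ofReal h4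
      calc ‖ev P y‖ₑ ^ p ≤ ‖ev P y‖ₑ ^ (1 : ℝ) := ENNReal.rpow_le_rpow_of_exponent_ge h5 hp
        _ = ENNReal.ofReal (ker N n (1 / (16 * n)) y) := by rw [ENNReal.rpow_one, h3]
        _ ≤ _ := ker_maj hn N n (by positivity) hN2 y hy2
    calc ∫⁻ y in cube n 2, ‖ev P y‖ₑ ^ p
        ≤ ∫⁻ y in cube n 2, ENNReal.ofReal ((64 * n) ^ n) * maj n (D / (4 * n)) n y :=
          setLIntegral_mono' (cube_meas n 2) h2
      _ ≤ ∫⁻ y, ENNReal.ofReal ((64 * n) ^ n) * maj n (D / (4 * n)) n y :=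
          setLIntegral_le_lintegral _ _
      _ = ENNReal.ofReal ((64 * n) ^ n) * (ENNReal.ofReal ((1 / (D / (4 * n))) ^ n) * I) := by
          rw [lintegral_const_mul' _ _ ENNReal.ofReal_ne_top, maj_int (by positivity)]
      _ = _ := by
          rw [hK, ← mul_assoc, ← ENNReal.ofReal_mul (by positivity), mul_right_comm,
            ← ENNReal.ofReal_mul (by positivity)]
          congr 2
          rw [← mul_pow, ← mul_pow]
          congr 1
          field_simp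
          ring
  -- the lower bound
  have h6 : ∀ e : E n, ‖e‖ = 1 → ENNReal.ofReal ((1 / 2) ^ (2 * n) / 2 * (1 / D)) ≤ smax P e := by
    intro e he
    set ρ : ℝ := 1 / (2 * ((N : ℝ) + 1)) with hρ
    have hN0 : (0 : ℝ) ≤ N := Nat.cast_nonneg N
    have hρ1 : ρ ≤ 1 / 2 := by
      rw [hρ]
      gcongr
      linarith
    have hρ0 : 0 < ρ := by positivity
    have h7 : ∀ s ∈ Icc (-ρ) ρ, ENNReal.ofReal ((1 / 2) ^ (2 * n)) ≤ ‖ev P (0 + s • e)‖ₑ := by
      intro s hs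
      rw [zero_add, ← ofReal_norm, hPe', Real.norm_of_nonneg (ker_nonneg _ _ _ _)]
      refine ENNReal.ofReal_le_ofReal (ker_big N n (by positivity) _ ?_)
      rw [norm_smul, he, mul_one, Real.norm_eq_abs, sq_abs]
      have h8 : s ^ 2 ≤ ρ ^ 2 := sq_le_sq' hs.1 hs.2
      have h9 : 1 / (16 * (n : ℝ)) * ((N : ℝ) + 1) ^ 2 * ρ ^ 2 ≤ 1 / 2 := by
        rw [hρ]
        have e1 : 1 / (16 * (n : ℝ)) * ((N : ℝ) + 1) ^ 2 * (1 / (2 * ((N : ℝ) + 1))) ^ 2 =
            1 / (64 * n) := by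
          field_simp
          ring
        rw [e1, div_le_div_iff₀ (by positivity) (by norm_num)]
        linarith
      calc 1 / (16 * (n : ℝ)) * ((N : ℝ) + 1) ^ 2 * s ^ 2
          ≤ 1 / (16 * (n : ℝ)) * ((N : ℝ) + 1) ^ 2 * ρ ^ 2 := by gcongr
        _ ≤ _ := h9
    have h0 : (0 : E n) ∈ cube n (1 / 2) := fun i => by simp
    calc ENNReal.ofReal ((1 / 2) ^ (2 * n) / 2 * (1 / D))
        ≤ ENNReal.ofReal ((1 / 2) ^ (2 * n)) * ENNReal.ofReal (ρ - -ρ) := by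
          rw [← ENNReal.ofReal_mul (by positivity)]
          refine ENNReal.ofReal_le_ofReal ?_
          have e2 : ρ - -ρ = 1 / ((N : ℝ) + 1) := by rw [hρ]; field_simp; ring
          have e4 : 1 / 2 * (1 / (D : ℝ)) ≤ 1 / ((N : ℝ) + 1) := by
            rw [div_mul_div_comm, one_mul, div_le_div_iff₀ (by positivity) (by positivity)]
            linarith
          rw [e2]
          calc (1 / 2 : ℝ) ^ (2 * n) / 2 * (1 / D) = (1 / 2 : ℝ) ^ (2 * n) * (1 / 2 * (1 / D)) := by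
                ring
            _ ≤ _ := by gcongr
      _ = ∫⁻ _s in Icc (-ρ) ρ, ENNReal.ofReal ((1 / 2) ^ (2 * n)) := by
          rw [setLIntegral_const, Real.volume_Icc]
      _ ≤ ∫⁻ s in Icc (-ρ) ρ, ‖ev P (0 + s • e)‖ₑ := setLIntegral_mono' measurableSet_Icc h7
      _ ≤ ∫⁻ s in Icc (-(1 / 2) : ℝ) (1 / 2), ‖ev P (0 + s • e)‖ₑ :=
          lintegral_mono_set (Icc_subset_Icc (by linarith) hρ1)
      _ ≤ smax P e := le_iSup₂ (f := fun (a : E n) (_ : a ∈ cube n (1 / 2)) =>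
            ∫⁻ s in Icc (-(1 / 2) : ℝ) (1 / 2), ‖ev P (a + s • e)‖ₑ) 0 h0
  have e3 : ENNReal.ofReal ((D : ℝ) ^ ((n : ℝ) - p)) * ENNReal.ofReal ((1 / D) ^ n) =
      ENNReal.ofReal ((1 / D) ^ p) := by
    rw [← ENNReal.ofReal_mul (by positivity)]
    congr 1
    rw [Real.rpow_sub hD0, Real.rpow_natCast, Real.div_rpow zero_le_one hD0.le, Real.one_rpow]
    field_simp
    rw [← mul_pow, mul_one_div_cancel hD0.ne', one_pow]
  calc L / (K + 1) * ENNReal.ofReal ((D : ℝ) ^ ((n : ℝ) - p)) * ∫⁻ y in cube n 2, ‖ev P y‖ₑ ^ p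
      ≤ L / (K + 1) * ENNReal.ofReal ((D : ℝ) ^ ((n : ℝ) - p)) *
        (K * ENNReal.ofReal ((1 / D) ^ n)) := by gcongr
    _ = L / (K + 1) * K * (ENNReal.ofReal ((D : ℝ) ^ ((n : ℝ) - p)) * ENNReal.ofReal ((1 / D) ^ n)) := by
        ring
    _ ≤ L / (K + 1) * (K + 1) * ENNReal.ofReal ((1 / D) ^ p) := by
        rw [e3]
        gcongr
        exact le_self_add
    _ = L * ENNReal.ofReal ((1 / D) ^ p) := by
        rw [ENNReal.div_mul_cancel (by simp) (by finiteness)]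
    _ = ∫⁻ _e, ENNReal.ofReal ((1 / 2) ^ (2 * n) / 2 * (1 / D)) ^ p ∂(surf n) := by
        rw [lintegral_const, ENNReal.ofReal_mul (by positivity),
          ENNReal.mul_rpow_of_nonneg _ _ hp0.le, ENNReal.ofReal_rpow_of_nonneg (by positivity) hp0.le,
          ENNReal.ofReal_rpow_of_nonneg (x := 1 / (D : ℝ)) (by positivity) hp0.le, hL,
          ENNReal.ofReal_rpow_of_nonneg (by positivity) hp0.le]
        ring
    _ ≤ _ := by
        refine lintegral_mono fun e => ?_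
        exact ENNReal.rpow_le_rpow (h6 e (mem_sphere_zero_iff_norm.1 e.2)) hp0.le

end Pool.Agent.H222.KP
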