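import Pool.Graph.R_seed8.W767.Kc.Tube

/-!
Tubes of length one and unit segments with the same midpoint.
-/

open MeasureTheory Set Filter Topology ENNReal NNReal Metric

namespace Pool.Agent.H222.KP

open Pool.Agent.W767.Kc Pool.Agent.H742R2.Kk

variable {n : ℕ}

/-- the Kakeya maximal function -/
noncomputable def kmax (δ : ℝ) (F : E n → ℝ≥0∞) (e : E n) : ℝ≥0∞ :=
  ⨆ a : E n, (volume (tube δ e a))⁻¹ * ∫⁻ y in tube δ e a, F y

/-- the integral over a tube is controlled by the averages along the unit segment -/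
theorem tube_lower {δ : ℝ} (hδ : 0 < δ) (hδ1 : δ ≤ 1) {F : E n → ℝ≥0∞} (hF : Measurable F)
    {e a : E n} (he : ‖e‖ = 1) :
    ENNReal.ofReal (δ / 2) * ∫⁻ y in tube δ e a, F y
      ≤ ∫⁻ s in Icc (-(1 / 2) : ℝ) (1 / 2), Av (2 * δ) F (a + s • e) := by
  set S : Set (ℝ × E n) := {q | ‖q.2 - (a + q.1 • e)‖ ≤ 2 * δ} with hS
  have hSm : MeasurableSet S := measurableSet_le (by fun_prop) measurable_const
  have hAv : ∀ s : ℝ, Av (2 * δ) F (a + s • e) = ∫⁻ y, S.indicator (fun q => F q.2) (s, y) := by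
    intro s
    rw [Av, ← lintegral_indicator isClosed_closedBall.measurableSet]
    congr 1
  simp_rw [hAv]
  have hm : Measurable (S.indicator (fun q : ℝ × E n => F q.2)) :=
    (hF.comp measurable_snd).indicator hSm
  rw [lintegral_lintegral_swap (f := fun s y => S.indicator (fun q : ℝ × E n => F q.2) (s, y))
    hm.aemeasurable, ← lintegral_const_mul' _ _ ENNReal.ofReal_ne_top]
  refine le_trans ?_ (setLIntegral_le_lintegral (tube δ e a) _)
  apply setLIntegral_mono' (isClosed_tube δ e a).measurableSet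
  intro y hy
  obtain ⟨hy1, hy2⟩ := hy
  set τ : ℝ := inner ℝ (y - a) e with hτ
  have hsub : ∀ s : ℝ, |τ - s| ≤ δ → (s, y) ∈ S := by
    intro s hs
    show ‖y - (a + s • e)‖ ≤ 2 * δ
    have e1 : y - (a + s • e) = ((y - a) - τ • e) + (τ - s) • e := by
      rw [sub_smul]; abel
    rw [e1]
    refine (norm_add_le _ _).trans ?_
    rw [norm_smul, he, mul_one, Real.norm_eq_abs]
    linarith
  have hτ2 := abs_le.1 hy1
  obtain ⟨u, hu1, hu2, hu3⟩ : ∃ u : ℝ, -(1 / 2) ≤ u ∧ u + δ / 2 ≤ 1 / 2 ∧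
      ∀ s ∈ Icc u (u + δ / 2), |τ - s| ≤ δ := by
    rcases le_or_gt τ 0 with h | h
    · refine ⟨τ, hτ2.1, by linarith, fun s hs => abs_le.2 ⟨?_, ?_⟩⟩ <;> linarith [hs.1, hs.2]
    · refine ⟨τ - δ / 2, by linarith, by linarith [hτ2.2], fun s hs => abs_le.2 ⟨?_, ?_⟩⟩ <;>
        linarith [hs.1, hs.2]
  calc ENNReal.ofReal (δ / 2) * F y = ∫⁻ s in Icc u (u + δ / 2), F y := by
        rw [setLIntegral_const, Real.volume_Icc, mul_comm]
        congr 2
        ring
    _ ≤ ∫⁻ s in Icc u (u + δ / 2), S.indicator (fun q : ℝ × E n => F q.2) (s, y) := by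
        apply setLIntegral_mono' measurableSet_Icc
        intro s hs
        rw [indicator_of_mem (hsub s (hu3 s hs))]
    _ ≤ _ := lintegral_mono_set (Icc_subset_Icc hu1 hu2)

/-- the averages along a unit segment are controlled by three tubes -/
theorem tube_upper {δ : ℝ} (hδ : 0 < δ) (hδ1 : δ ≤ 1) {F : E n → ℝ≥0∞} (hF : Measurable F)
    {e a : E n} (he : ‖e‖ = 1) :
    ∫⁻ s in Icc (-(1 / 2) : ℝ) (1 / 2), Av δ F (a + s • e) ≤
      ENNReal.ofReal (2 * δ) * ((∫⁻ y in tube δ e (a - e), F y) + (∫⁻ y in tube δ e a, F y) +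
        ∫⁻ y in tube δ e (a + e), F y) := by
  set S : Set (ℝ × E n) := {q | ‖q.2 - (a + q.1 • e)‖ ≤ δ} with hS
  have hSm : MeasurableSet S := measurableSet_le (by fun_prop) measurable_const
  have hAv : ∀ s : ℝ, Av δ F (a + s • e) = ∫⁻ y, S.indicator (fun q => F q.2) (s, y) := by
    intro s
    rw [Av, ← lintegral_indicator isClosed_closedBall.measurableSet]
    congr 1
  simp_rw [hAv]
  have hm : Measurable (S.indicator (fun q : ℝ × E n => F q.2)) :=
    (hF.comp measurable_snd).indicator hSm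
  rw [lintegral_lintegral_swap (f := fun s y => S.indicator (fun q : ℝ × E n => F q.2) (s, y))
    hm.aemeasurable]
  have hmt : ∀ b : E n, MeasurableSet (tube δ e b) := fun b => (isClosed_tube δ e b).measurableSet
  have h1 : ∀ y, ∫⁻ s in Icc (-(1 / 2) : ℝ) (1 / 2), S.indicator (fun q : ℝ × E n => F q.2) (s, y) ≤
      ENNReal.ofReal (2 * δ) * ((tube δ e (a - e)).indicator F y + (tube δ e a).indicator F y +
        (tube δ e (a + e)).indicator F y) := by
    intro y
    set τ : ℝ := inner ℝ (y - a) e with hτ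
    have hee : (inner ℝ e e : ℝ) = 1 := by
      rw [real_inner_self_eq_norm_sq, he]; norm_num
    have hproj : ∀ s : ℝ, ‖y - (a + s • e)‖ ^ 2 = ‖(y - a) - τ • e‖ ^ 2 + (τ - s) ^ 2 := by
      intro s
      have e1 : y - (a + s • e) = ((y - a) - τ • e) + (τ - s) • e := by
        rw [sub_smul]; abel
      have e2 : (inner ℝ ((y - a) - τ • e) ((τ - s) • e) : ℝ) = 0 := by
        rw [inner_smul_right, inner_sub_left, inner_smul_left, hee]
        simp [← hτ]
      rw [e1, norm_add_sq_real, e2, norm_smul, he, Real.norm_eq_abs, mul_one, sq_abs]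
      ring
    by_cases hy : ∃ s ∈ Icc (-(1 / 2) : ℝ) (1 / 2), (s, y) ∈ S
    · obtain ⟨s, hs, hsy⟩ := hy
      have hsy' : ‖y - (a + s • e)‖ ≤ δ := hsy
      have h2 := hproj s
      have h3 : ‖y - (a + s • e)‖ ^ 2 ≤ δ ^ 2 := by gcongr
      have h4 : ‖(y - a) - τ • e‖ ≤ δ := by
        refine abs_le_of_sq_le_sq' ?_ hδ.le |>.2
        nlinarith [sq_nonneg (τ - s)]
      have h5 : |τ - s| ≤ δ := by
        refine abs_le_of_sq_le_sq ?_ hδ.le
        nlinarith [sq_nonneg ‖(y - a) - τ • e‖]
      have h6 := abs_le.1 h5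
      have h7 : F y ≤ (tube δ e (a - e)).indicator F y + (tube δ e a).indicator F y +
          (tube δ e (a + e)).indicator F y := by
        rcases lt_or_ge τ (-(1 / 2)) with h | h
        · have h8 : y ∈ tube δ e (a - e) := by
            have e3 : y - (a - e) = (y - a) + e := by abel
            constructor
            · rw [e3, inner_add_left, hee, ← hτ, abs_le]
              constructor <;> linarith [hs.1, hs.2]
            · rw [e3, inner_add_left, hee, ← hτ]
              have e4 : y - a + e - (τ + 1) • e = (y - a) - τ • e := by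
                rw [add_smul, one_smul]; abel
              rw [e4]; exact h4
          rw [indicator_of_mem h8]
          exact le_add_right (le_add_right le_rfl)
        · rcases lt_or_ge (1 / 2) τ with h' | h'
          · have h8 : y ∈ tube δ e (a + e) := by
              have e3 : y - (a + e) = (y - a) - e := by abel
              constructor
              · rw [e3, inner_sub_left, hee, ← hτ, abs_le]
                constructor <;> linarith [hs.1, hs.2]
              · rw [e3, inner_sub_left, hee, ← hτ]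
                have e4 : y - a - e - (τ - 1) • e = (y - a) - τ • e := by
                  rw [sub_smul, one_smul]; abel
                rw [e4]; exact h4
            rw [indicator_of_mem h8]
            exact le_add_left le_rfl
          · have h8 : y ∈ tube δ e a := ⟨abs_le.2 ⟨h, h'⟩, h4⟩
            rw [indicator_of_mem h8]
            exact le_add_right (le_add_left le_rfl)
      calc ∫⁻ s in Icc (-(1 / 2) : ℝ) (1 / 2), S.indicator (fun q : ℝ × E n => F q.2) (s, y)
          ≤ ∫⁻ s in Icc (-(1 / 2) : ℝ) (1 / 2), (Icc (τ - δ) (τ + δ)).indicator (fun _ => F y) s := by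
            refine lintegral_mono fun s' => ?_
            by_cases hs' : (s', y) ∈ S
            · have h9 : ‖y - (a + s' • e)‖ ≤ δ := hs'
              have h10 := hproj s'
              have h11 : ‖y - (a + s' • e)‖ ^ 2 ≤ δ ^ 2 := by gcongr
              have h12 : |τ - s'| ≤ δ := by
                refine abs_le_of_sq_le_sq ?_ hδ.le
                nlinarith [sq_nonneg ‖(y - a) - τ • e‖]
              have h13 := abs_le.1 h12
              have h14 : s' ∈ Icc (τ - δ) (τ + δ) := ⟨by linarith, by linarith⟩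
              rw [indicator_of_mem hs', indicator_of_mem h14]
            · rw [indicator_of_notMem hs']
              exact zero_le
        _ ≤ ∫⁻ s, (Icc (τ - δ) (τ + δ)).indicator (fun _ => F y) s :=
            setLIntegral_le_lintegral _ _
        _ = ENNReal.ofReal (2 * δ) * F y := by
            rw [lintegral_indicator measurableSet_Icc, setLIntegral_const, Real.volume_Icc,
              mul_comm]
            congr 2
            ring
        _ ≤ _ := by gcongr
    · have h2 : ∫⁻ s in Icc (-(1 / 2) : ℝ) (1 / 2), S.indicator (fun q : ℝ × E n => F q.2) (s, y) =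
          0 := by
        rw [setLIntegral_congr_fun (g := fun _ => 0) measurableSet_Icc]
        · simp
        · intro s hs
          exact indicator_of_notMem (fun h => hy ⟨s, hs, h⟩) _
      rw [h2]
      exact zero_le
  refine (lintegral_mono h1).trans (le_of_eq ?_)
  have hi : ∀ b : E n, Measurable ((tube δ e b).indicator F) := fun b => hF.indicator (hmt b)
  rw [lintegral_const_mul' _ _ ENNReal.ofReal_ne_top, lintegral_add_right _ (hi _),
    lintegral_add_right _ (hi _), lintegral_indicator (hmt _), lintegral_indicator (hmt _),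
    lintegral_indicator (hmt _)]

/-- the volume of a tube, upper bound -/
theorem tube_vol {δ : ℝ} (hδ : 0 < δ) (hδ1 : δ ≤ 1) {e : E n} (he : ‖e‖ = 1) (a : E n) :
    ENNReal.ofReal δ * volume (tube δ e a) ≤ 2 ^ (n + 1) * vB n δ := by
  have h := tube_lower hδ hδ1 (F := fun _ => 1) measurable_const (a := a) he
  have h1 : ∀ x : E n, Av (2 * δ) (fun _ => (1 : ℝ≥0∞)) x = vB n (2 * δ) := by
    intro x
    unfold Av vB
    rw [lintegral_one, Measure.restrict_apply_univ,
      Measure.addHaar_closedBall_center]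
  simp only [h1, lintegral_one, Measure.restrict_apply_univ] at h
  rw [setLIntegral_const, Real.volume_Icc] at h
  have h2 : ENNReal.ofReal (1 / 2 - -(1 / 2)) = 1 := by norm_num
  rw [h2, mul_one, vB_eq n (by positivity : (0 : ℝ) ≤ 2 * δ)] at h
  rw [vB_eq n hδ.le]
  have h3 : ENNReal.ofReal δ = 2 * ENNReal.ofReal (δ / 2) := by
    rw [← ENNReal.ofReal_ofNat 2, ← ENNReal.ofReal_mul (by norm_num)]
    congr 1
    ring
  have h4 : ENNReal.ofReal ((2 * δ) ^ n) = 2 ^ n * ENNReal.ofReal (δ ^ n) := by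
    rw [mul_pow, ENNReal.ofReal_mul (by positivity), ENNReal.ofReal_pow (by norm_num),
      ENNReal.ofReal_ofNat]
  rw [h4] at h
  rw [h3, mul_assoc]
  calc 2 * (ENNReal.ofReal (δ / 2) * volume (tube δ e a))
      ≤ 2 * (2 ^ n * ENNReal.ofReal (δ ^ n) * vB n 1) := by gcongr
    _ = _ := by rw [pow_succ]; ring

/-- the averages along a unit segment are controlled by the Kakeya maximal function -/
theorem seg_le_kmax {δ : ℝ} (hδ : 0 < δ) (hδ1 : δ ≤ 1) {F : E n → ℝ≥0∞} (hF : Measurable F)
    {e : E n} (a : E n) (he : ‖e‖ = 1) (hn : 1 ≤ n) :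
    ∫⁻ s in Icc (-(1 / 2) : ℝ) (1 / 2), Phi δ F (a + s • e) ≤ 6 * 2 ^ (n + 1) * kmax δ F e := by
  obtain ⟨d, rfl⟩ : ∃ d, n = d + 1 := ⟨n - 1, by omega⟩
  obtain ⟨c, hc, hvol⟩ := volume_tube d
  unfold Phi
  rw [lintegral_const_mul' _ _ (ENNReal.inv_ne_top.2 (vB_ne_zero _ hδ))]
  have h1 := tube_upper hδ hδ1 hF (a := a) he
  have hv0 : ∀ b : E (d + 1), volume (tube δ e b) ≠ 0 := fun b => by
    have h2 : ENNReal.ofReal (c * δ ^ d) ≤ volume (tube δ e b) := hvol δ e b hδ he
    have h3 : 0 < ENNReal.ofReal (c * δ ^ d) := ENNReal.ofReal_pos.2 (by positivity)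
    exact (h3.trans_le h2).ne'
  have hvt : ∀ b : E (d + 1), volume (tube δ e b) ≠ ∞ := fun b h => by
    have h2 := tube_vol hδ hδ1 he b
    rw [h, ENNReal.mul_top (by simpa using hδ)] at h2
    exact absurd h2 (not_le.2 (ENNReal.mul_lt_top (by simp) (vB_ne_top _ _).lt_top))
  have h4 : ∀ b : E (d + 1), ENNReal.ofReal (2 * δ) * ∫⁻ y in tube δ e b, F y ≤
      2 * 2 ^ (d + 1 + 1) * vB (d + 1) δ * kmax δ F e := by
    intro b
    have h5 : ∫⁻ y in tube δ e b, F y ≤ volume (tube δ e b) * kmax δ F e := by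
      have h6 : (volume (tube δ e b))⁻¹ * ∫⁻ y in tube δ e b, F y ≤ kmax δ F e :=
        le_iSup (fun a : E (d + 1) => (volume (tube δ e a))⁻¹ * ∫⁻ y in tube δ e a, F y) b
      calc ∫⁻ y in tube δ e b, F y
          = volume (tube δ e b) * ((volume (tube δ e b))⁻¹ * ∫⁻ y in tube δ e b, F y) := by
            rw [← mul_assoc, ENNReal.mul_inv_cancel (hv0 b) (hvt b), one_mul]
        _ ≤ _ := by gcongr
    have h7 := tube_vol hδ hδ1 he b
    calc ENNReal.ofReal (2 * δ) * ∫⁻ y in tube δ e b, F y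
        ≤ ENNReal.ofReal (2 * δ) * (volume (tube δ e b) * kmax δ F e) := by gcongr
      _ = 2 * (ENNReal.ofReal δ * volume (tube δ e b)) * kmax δ F e := by
          rw [ENNReal.ofReal_mul (by norm_num), ENNReal.ofReal_ofNat]
          ring
      _ ≤ 2 * (2 ^ (d + 1 + 1) * vB (d + 1) δ) * kmax δ F e := by gcongr
      _ = _ := by ring
  calc (vB (d + 1) δ)⁻¹ * ∫⁻ s in Icc (-(1 / 2) : ℝ) (1 / 2), Av δ F (a + s • e)
      ≤ (vB (d + 1) δ)⁻¹ * (2 * 2 ^ (d + 1 + 1) * vB (d + 1) δ * kmax δ F e +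
          2 * 2 ^ (d + 1 + 1) * vB (d + 1) δ * kmax δ F e +
          2 * 2 ^ (d + 1 + 1) * vB (d + 1) δ * kmax δ F e) := by
        gcongr
        refine h1.trans ?_
        rw [mul_add, mul_add]
        exact add_le_add (add_le_add (h4 _) (h4 _)) (h4 _)
    _ = ((vB (d + 1) δ)⁻¹ * vB (d + 1) δ) * (6 * 2 ^ (d + 1 + 1) * kmax δ F e) := by ring
    _ = _ := by rw [ENNReal.inv_mul_cancel (vB_ne_zero _ hδ) (vB_ne_top _ _), one_mul]

/-- the average over a tube is controlled by the integrals over balls along the unit segment -/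
theorem tube_le_seg (hn : 1 ≤ n) : ∃ C : ℝ, 0 < C ∧ ∀ (δ : ℝ), 0 < δ → δ ≤ 1 →
    ∀ (F : E n → ℝ≥0∞), Measurable F → ∀ (e a : E n), ‖e‖ = 1 →
    (volume (tube δ e a))⁻¹ * ∫⁻ y in tube δ e a, F y ≤
      ENNReal.ofReal (C * (1 / δ) ^ n) *
        ∫⁻ s in Icc (-(1 / 2) : ℝ) (1 / 2), Av (2 * δ) F (a + s • e) := by
  obtain ⟨d, rfl⟩ : ∃ d, n = d + 1 := ⟨n - 1, by omega⟩
  obtain ⟨c, hc, hvol⟩ := volume_tube d
  refine ⟨2 / c, by positivity, fun δ hδ hδ1 F hF e a he => ?_⟩
  have h1 := tube_lower hδ hδ1 hF (a := a) he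
  have h2 : ENNReal.ofReal (c * δ ^ d) ≤ volume (tube δ e a) := hvol δ e a hδ he
  set I := ∫⁻ y in tube δ e a, F y with hI
  set X := ∫⁻ s in Icc (-(1 / 2) : ℝ) (1 / 2), Av (2 * δ) F (a + s • e) with hX
  have h5 : I ≤ ENNReal.ofReal ((δ / 2)⁻¹) * X := by
    calc I = ENNReal.ofReal ((δ / 2)⁻¹) * (ENNReal.ofReal (δ / 2) * I) := by
          rw [← mul_assoc, ← ENNReal.ofReal_mul (by positivity), inv_mul_cancel₀ (by positivity),
            ENNReal.ofReal_one, one_mul]
      _ ≤ _ := by gcongr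
  calc (volume (tube δ e a))⁻¹ * I
      ≤ (ENNReal.ofReal (c * δ ^ d))⁻¹ * (ENNReal.ofReal ((δ / 2)⁻¹) * X) := by
        gcongr
    _ = _ := by
        rw [← ENNReal.ofReal_inv_of_pos (by positivity), ← mul_assoc,
          ← ENNReal.ofReal_mul (by positivity)]
        congr 2
        rw [one_div, inv_pow, pow_succ]
        field_simp

end Pool.Agent.H222.KP
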